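import Pool.Agent.H63PL.OrI

/-!
# Maps which commute with the conjunction
-/

set_option autoImplicit false

namespace Pool.Agent.H63PL

open Finset Pool.Agent.Grz Pool.Agent.GAvg Pool.Agent.PTr Pool.Agent.LPC Pool.Agent.LinU

/-- the complement -/
def cpl (N z : ℕ) : ℕ := code N fun i => !(z.testBit i)

theorem cpl_lt (N z : ℕ) : cpl N z < 2 ^ N := code_lt N _

theorem testBit_cpl {N z i : ℕ} (hi : i < N) : (cpl N z).testBit i = !(z.testBit i) :=
  testBit_code hi

theorem cpl_cpl {N z : ℕ} (hz : z < 2 ^ N) : cpl N (cpl N z) = z :=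
  ext_testBit (cpl_lt _ _) hz fun i hi => by rw [testBit_cpl hi, testBit_cpl hi, Bool.not_not]

theorem cpl_or {N y z : ℕ} : cpl N (y ||| z) = cpl N y &&& cpl N z :=
  ext_testBit (cpl_lt _ _) (lt_of_le_of_lt Nat.and_le_left (cpl_lt N y)) fun i hi => by
    rw [Nat.testBit_and, testBit_cpl hi, testBit_cpl hi, testBit_cpl hi, Nat.testBit_or,
      Bool.not_or]

theorem cpl_and {N y z : ℕ} : cpl N (y &&& z) = cpl N y ||| cpl N z :=
  ext_testBit (cpl_lt _ _) (Nat.or_lt_two_pow (cpl_lt _ _) (cpl_lt _ _)) fun i hi => by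
    rw [Nat.testBit_or, testBit_cpl hi, testBit_cpl hi, testBit_cpl hi, Nat.testBit_and,
      Bool.not_and]

theorem dfun_cpl {n : ℕ} {N B z : (Fin n → ℕ) → ℕ} (hN : DFun n N) (hB : DFun n B)
    (hNB : ∀ v, 2 ^ N v ≤ B v) (hz : DFun n z) : DFun n (fun v => cpl (N v) (z v)) := by
  refine code_def (f := fun j v => !((z v).testBit j)) hN hB hNB ?_
  have h := (DFun.const (n := n + 1) 1).sub (testBit_def hz.weak (DFun.proj (n := n + 1) 0))
  refine (show (fun w : Fin (n + 1) → ℕ => (!((z fun i => w i.succ).testBit (w 0))).toNat) = _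
    from ?_) ▸ h
  funext w
  cases ((z fun i => w i.succ).testBit (w 0)) <;> rfl

theorem and_iter' {n : ℕ} {N B x t : (Fin n → ℕ) → ℕ} {T : ℕ → (Fin n → ℕ) → ℕ}
    (hN : DFun n N) (hB : DFun n B) (hx : DFun n x) (ht : DFun n t)
    (hT : DFun (n + 1) (fun w => T (w 0) fun i => w i.succ)) (hNB : ∀ v, 2 ^ N v ≤ B v)
    (hTb : ∀ v z, z < 2 ^ N v → T z v < 2 ^ N v)
    (hop : ∀ v y z, y < 2 ^ N v → z < 2 ^ N v → T (y &&& z) v = T y v &&& T z v)
    (hxb : ∀ v, x v < 2 ^ N v) : DFun n (fun v => (fun z => T z v)^[t v] (x v)) := by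
  have hT' : DFun (n + 1) (fun w => cpl (N fun i => w i.succ)
      (T (cpl (N fun i => w i.succ) (w 0)) fun i => w i.succ)) := by
    refine dfun_cpl hN.weak hB.weak (fun w => hNB _) ?_
    exact hT.comp (h := Fin.cons (fun w : Fin (n + 1) → ℕ => cpl (N fun i => w i.succ) (w 0))
      (fun i (w : Fin (n + 1) → ℕ) => w i.succ)) (fun i => by
        refine Fin.cases ?_ (fun i => ?_) i
        · exact dfun_cpl hN.weak hB.weak (fun w => hNB _) (DFun.proj 0)
        · exact DFun.proj i.succ)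
  have h := or_iter' (x := fun v => cpl (N v) (x v))
    (T := fun z v => cpl (N v) (T (cpl (N v) z) v)) hN hB (dfun_cpl hN hB hNB hx) ht hT' hNB
    (fun v z _ => cpl_lt _ _) (fun v y z _ _ => by
      show cpl _ _ = cpl _ _ ||| cpl _ _
      rw [cpl_or, hop v _ _ (cpl_lt _ _) (cpl_lt _ _), cpl_and]) (fun v => cpl_lt _ _)
  refine (show (fun v => (fun z => T z v)^[t v] (x v)) = _ from ?_) ▸ dfun_cpl hN hB hNB h
  funext v
  have key : ∀ s : ℕ, (fun z => T z v)^[s] (x v) < 2 ^ N v ∧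
      (fun z => cpl (N v) (T (cpl (N v) z) v))^[s] (cpl (N v) (x v)) =
        cpl (N v) ((fun z => T z v)^[s] (x v)) := by
    intro s
    induction s with
    | zero => exact ⟨hxb v, rfl⟩
    | succ s ih =>
      rw [Function.iterate_succ_apply', Function.iterate_succ_apply', ih.2]
      refine ⟨hTb v _ ih.1, ?_⟩
      show cpl _ (T (cpl _ (cpl _ _)) v) = _
      rw [cpl_cpl ih.1]
  rw [(key (t v)).2, cpl_cpl (key (t v)).1]

end Pool.Agent.H63PL
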