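import Pool.Agent.H63PL.Def
import Pool.Agent.LinU46.Two

/-!
# All functions of `K` variables
-/

set_option autoImplicit false

namespace Pool.Agent.H63PL

open Finset Pool.Agent.Grz Pool.Agent.GAvg Pool.Agent.PTr Pool.Agent.LinU Pool.Agent.LinU46

/-- the rules of the automaton: the variable `0` is the letter, the variable `q + 1` the state `q` -/
def rul (δ : ℕ → ℕ → ℕ × ℕ) (Q : ℕ) (s : Fin (Q + 1)) : BF (Q + 1) := fun x =>
  decide ((∑ q : Fin Q, (if (s : ℕ) = 0 then (δ q (x 0).toNat).2 else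
    if (δ q (x 0).toNat).1 + 1 = (s : ℕ) then 1 else 0) * (x q.succ).toNat) % 2 = 1)

/-- the number of the rule of the cell `i` -/
def cc (Q n i : ℕ) : ℕ := if i < n then Q + 1 else i - n

/-- the inputs of the cell `i` -/
def aa (Q n l i : ℕ) : ℕ :=
  if i < n then (if l = 0 then i + 1 else 0) else if l = 0 then 0 else if l ≤ Q then n + l else 0

theorem toNat_decide {m : ℕ} : (decide (m % 2 = 1)).toNat = m % 2 := by
  rcases Nat.mod_two_eq_zero_or_one m with h | h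
  · rw [h]
    rfl
  · rw [h]
    rfl

theorem ix_eq (δ : ℕ → ℕ → ℕ × ℕ) (Q n z : ℕ) :
    ix (rul δ Q) (n + 1 + Q) (cc Q n) (aa Q n) z = tw δ Q n z := by
  unfold ix code tw
  refine sum_congr rfl fun i hi => ?_
  rw [mem_range] at hi
  congr 1
  show (if h : cc Q n i < Q + 1 then rul δ Q ⟨cc Q n i, h⟩ fun l => z.testBit (aa Q n (l : ℕ) i)
    else z.testBit (aa Q n 0 i)).toNat = gd δ Q n (z % 2) z i
  by_cases h1 : i < n
  · have hc : ¬ cc Q n i < Q + 1 := by rw [cc, if_pos h1]; omega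
    rw [dif_neg hc, aa, if_pos h1, if_pos rfl, gd, if_pos h1, dg_testBit]
  · have hc : cc Q n i < Q + 1 := by rw [cc, if_neg h1]; omega
    rw [dif_pos hc]
    have h0 : (z.testBit (aa Q n ((0 : Fin (Q + 1)) : ℕ) i)).toNat = z % 2 := by
      rw [← dg_testBit, aa, if_neg h1]
      show dg 2 z (if (0 : ℕ) = 0 then 0 else _) = _
      rw [if_pos rfl, dg_zero_right]
    have hq : ∀ q : Fin Q, (z.testBit (aa Q n ((q.succ : Fin (Q + 1)) : ℕ) i)).toNat =
        dg 2 z (n + 1 + q) := by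
      intro q
      have := q.2
      rw [← dg_testBit, aa, if_neg h1, Fin.val_succ, if_neg (by omega), if_pos (by omega)]
      congr 1
      omega
    unfold rul
    rw [toNat_decide]
    simp only [h0, hq]
    unfold gd
    rw [if_neg h1]
    have hcv : cc Q n i = i - n := by rw [cc, if_neg h1]
    rw [hcv]
    by_cases h2 : i = n
    · rw [if_pos h2]
      congr 1
      rw [Finset.sum_range]
      refine sum_congr rfl fun q _ => ?_
      rw [if_pos (by omega)]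
    · rw [if_neg h2]
      congr 1
      rw [Finset.sum_range]
      refine sum_congr rfl fun q _ => ?_
      rw [if_neg (by omega)]
      by_cases h3 : n + 1 + (δ q (z % 2)).1 = i
      · rw [if_pos h3, if_pos (by omega), one_mul]
      · rw [if_neg h3, if_neg (by omega), zero_mul]

theorem cc_def (Q : ℕ) {m : ℕ} {n i : (Fin m → ℕ) → ℕ} (hn : DFun m n) (hi : DFun m i) :
    DFun m (fun v => cc Q (n v) (i v)) := by
  unfold cc
  exact DFun.ite (Delta0.ltFun hi hn) (DFun.const _) (hi.sub hn)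

theorem aa_def (Q l : ℕ) {m : ℕ} {n i : (Fin m → ℕ) → ℕ} (hn : DFun m n) (hi : DFun m i) :
    DFun m (fun v => aa Q (n v) l (i v)) := by
  unfold aa
  refine DFun.ite (Delta0.ltFun hi hn) ?_ ?_
  · by_cases h : l = 0
    · simp only [if_pos h]
      exact hi.add (DFun.const 1)
    · simp only [if_neg h]
      exact DFun.const 0
  · by_cases h : l = 0
    · simp only [if_pos h]
      exact DFun.const 0
    · simp only [if_neg h]
      by_cases h' : l ≤ Q
      · simp only [if_pos h']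
        exact hn.add (DFun.const _)
      · simp only [if_neg h']
        exact DFun.const 0

theorem aa_lt {Q n l i : ℕ} : aa Q n l i < n + 1 + Q := by
  unfold aa
  split_ifs <;> omega

/-- The iterates of the automaton. -/
theorem iter_tw (H : ∀ (K r : ℕ) (F : Fin r → BF K), IxIter F) (δ : ℕ → ℕ → ℕ × ℕ) (Q : ℕ)
    {m : ℕ} {n x t B : (Fin m → ℕ) → ℕ} (hn : DFun m n) (hx : DFun m x) (ht : DFun m t)
    (hB : DFun m B) (hNB : ∀ v, 2 ^ (n v + 1 + Q) ≤ B v) (hxb : ∀ v, x v < 2 ^ (n v + 1 + Q)) :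
    DFun m (fun v => (fun z => tw δ Q (n v) z)^[t v] (x v)) := by
  have h1 := H (Q + 1) (Q + 1) (rul δ Q) m (fun v => n v + 1 + Q) B x t
    (fun i v => cc Q (n v) i) (fun l i v => aa Q (n v) l i)
    ((hn.add (DFun.const 1)).add (DFun.const Q)) hB hx ht (cc_def Q hn.weak (DFun.proj 0))
    (fun l => aa_def Q l hn.weak (DFun.proj 0)) hNB (fun _ _ _ _ => aa_lt) hxb
  refine (show (fun v => (fun z => tw δ Q (n v) z)^[t v] (x v)) = _ from ?_) ▸ h1
  funext v
  congr 1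
  funext z
  exact (ix_eq δ Q (n v) z).symm

theorem twOrb_of_ix (H : ∀ (K r : ℕ) (F : Fin r → BF K), IxIter F) (δ : ℕ → ℕ → ℕ × ℕ)
    (Qs x0 y0 n : ℕ) : TwOrb δ Qs x0 y0 n := by
  have hnn : DFun (n + 2) (fun u => lg (u 1 / 2)) :=
    DFun.lg (DFun.divPos (DFun.proj 1) (DFun.const 2) fun _ => two_pos)
  have hBB : DFun (n + 2) (fun u => (u 1 + 1) * 2 ^ (1 + Qs)) :=
    ((DFun.proj 1).add (DFun.const 1)).mul (DFun.const _)
  have hbd : ∀ u : Fin (n + 2) → ℕ, 2 ^ (lg (u 1 / 2) + 1 + Qs) ≤ (u 1 + 1) * 2 ^ (1 + Qs) := by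
    intro u
    rw [add_assoc, pow_add]
    refine Nat.mul_le_mul_right _ ?_
    rcases Nat.eq_zero_or_pos (u 1 / 2) with h0 | h0
    · rw [h0]
      simp [lg]
    · have h1 : 2 ^ lg (u 1 / 2) ≤ u 1 / 2 := Nat.pow_log_le_self 2 (by omega)
      omega
  have hx : DFun (n + 2) (fun u => em Qs (lg (u 1 / 2)) x0 (u 0)) :=
    dfun_em Qs x0 hnn (DFun.proj 0) hBB hbd
  have hy : DFun (n + 2) (fun u => em Qs (lg (u 1 / 2)) y0 1) :=
    dfun_em Qs y0 hnn (DFun.const 1) hBB hbd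
  have h1 : DFun (n + 2 + 1) (fun w => (fun z => tw δ Qs (lg (w 2 / 2)) z)^[w 0]
      (em Qs (lg (w 2 / 2)) x0 (w 1))) :=
    iter_tw H δ Qs hnn.weak hx.weak (DFun.proj 0) hBB.weak (fun w => hbd fun i => w i.succ)
      (fun w => em_lt Qs _ x0 _)
  have h2 := Delta0.bexFun (P := fun i (u : Fin (n + 2) → ℕ) =>
    (fun z => tw δ Qs (lg (u 1 / 2)) z)^[i] (em Qs (lg (u 1 / 2)) x0 (u 0)) =
      em Qs (lg (u 1 / 2)) y0 1) hBB (Delta0.eqFun h1 hy.weak)
  unfold TwOrb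
  refine h2.of_iff fun u => ⟨?_, ?_⟩
  · rintro ⟨i, hi⟩
    obtain ⟨j, hj, hj'⟩ := iter_le (f := fun z => tw δ Qs (lg (u 1 / 2)) z)
      (M := 2 ^ (lg (u 1 / 2) + 1 + Qs)) (em_lt Qs _ x0 _) (fun z _ => tw_lt δ Qs _ z) i
    exact ⟨j, hj.trans (hbd u), hj'.trans hi⟩
  · rintro ⟨i, -, hi⟩
    exact ⟨i, hi⟩

theorem base (H : ∀ (K r : ℕ) (F : Fin r → BF K), IxIter F) :
    ∀ (n : ℕ) (R : (Fin n → ℕ) → Prop), Delta0 n R ↔ E2Star n R := by
  intro n R
  refine ⟨fun h => h.e2Star, fun h => ?_⟩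
  obtain ⟨δ, Qs, x0, y0, h⟩ := exists_red h
  exact h (twOrb_of_ix H δ Qs x0 y0 n)

theorem iterF_of_eq {k : ℕ} (F : Set (BF k))
    (H : ∀ (n : ℕ) (R : (Fin n → ℕ) → Prop), Delta0 n R ↔ E2Star n R) : IterF F := by
  intro n N B x t T hN hB hx ht hT hNB hTb _ hxb
  exact iter_of_eq (fun n R hR => (H n R).2 hR) (dfun_powLe (DFun.const 2) hN hB hNB) hx ht hT
    hxb hTb

end Pool.Agent.H63PL
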