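import Pool.Agent.H63PL.Def

/-!
# Boolean functions: what is generated with constants (pure)
-/

set_option autoImplicit false

namespace Pool.Agent.H63PL

/-- substitution: `Cl` is closed under composition on the inside -/
theorem cl_subst {k : ℕ} {F : Set (BF k)} {K L : ℕ} {g : BF K} (hg : Cl F K g)
    {h : Fin K → BF L} (hh : ∀ i, Cl F L (h i)) : Cl F L (fun x => g fun i => h i x) := by
  induction hg with
  | var i => exact hh i
  | const b => exact Cl.const b
  | comp hf _ ih => exact Cl.comp hf ih

/-- the selection of a variable or a constant -/
theorem cl_ite {k : ℕ} {F : Set (BF k)} {K : ℕ} (P : Prop) [Decidable P] {g h : BF K}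
    (hg : Cl F K g) (hh : Cl F K h) : Cl F K (fun x => if P then g x else h x) := by
  split_ifs
  · exact hg
  · exact hh

/-- `NOT` from a function which is not monotone -/
theorem cl_not {k : ℕ} {F : Set (BF k)} {f : BF k} (hf : f ∈ F) {x y : Fin k → Bool}
    (hxy : ∀ l, x l = true → y l = true) (h1 : f x = true) (h2 : f y = false) {K : ℕ}
    {g : BF K} (hg : Cl F K g) : Cl F K (fun z => !(g z)) := by
  have h := Cl.comp hf (K := K) (g := fun l => fun z => if x l = y l then x l else g z)
    (fun l => cl_ite _ (Cl.const (x l)) hg)
  have e : (fun z => f fun l => if x l = y l then x l else g z) = fun z => !(g z) := by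
    funext z
    cases hz : g z
    · have e1 : (fun l => if x l = y l then x l else false) = x := by
        funext l
        split_ifs with hl
        · rfl
        · cases hx : x l
          · rfl
          · exact absurd (hx.trans (hxy l hx).symm) hl
      rw [e1, h1]
      rfl
    · have e1 : (fun l => if x l = y l then x l else true) = y := by
        funext l
        split_ifs with hl
        · exact hl
        · cases hx : x l
          · cases hy : y l
            · exact absurd (hx.trans hy.symm) hl
            · rfl
          · rw [hxy l hx]
      rw [e1, h2]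
      rfl
  rwa [e] at h

/-- flip the coordinate `i` -/
def flp {k : ℕ} (i : Fin k) (x : Fin k → Bool) : Fin k → Bool :=
  Function.update x i (!(x i))

/-- a function all of whose second differences vanish is affine -/
theorem affine_of_flp {k : ℕ} {f : BF k}
    (h : ∀ i j, i ≠ j → ∀ x,
      xor (xor (f x) (f (flp i x))) (xor (f (flp j x)) (f (flp i (flp j x)))) = false)
    (x y z : Fin k → Bool) :
    f (fun l => xor (xor (x l) (y l)) (z l)) = xor (xor (f x) (f y)) (f z) := by
  classical
  -- the differences are constant
  have hflp2 : ∀ (i : Fin k) x, flp i (flp i x) = x := by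
    intro i x
    unfold flp
    funext l
    by_cases hl : l = i
    · subst hl
      simp
    · simp [Function.update_of_ne hl]
  have hd : ∀ i j x, xor (f x) (f (flp i x)) = xor (f (flp j x)) (f (flp i (flp j x))) := by
    intro i j x
    by_cases hij : i = j
    · subst hij
      rw [hflp2, Bool.xor_comm]
    · have := h i j hij x
      revert this
      cases f x <;> cases f (flp i x) <;> cases f (flp j x) <;> cases f (flp i (flp j x)) <;> simp
  have hd' : ∀ i x, xor (f x) (f (flp i x)) = xor (f fun _ => false) (f (flp i fun _ => false)) := by
    intro i
    -- induction over the set of the true coordinates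
    have key : ∀ (S : Finset (Fin k)), xor (f fun l => decide (l ∈ S))
        (f (flp i fun l => decide (l ∈ S))) =
        xor (f fun _ => false) (f (flp i fun _ => false)) := by
      intro S
      induction S using Finset.induction_on with
      | empty => simp
      | insert j S hj ih =>
        have e : (fun l => decide (l ∈ insert j S)) = flp j fun l => decide (l ∈ S) := by
          unfold flp
          funext l
          by_cases hl : l = j
          · subst hl
            simp [hj]
          · simp [Finset.mem_insert, hl]
        rw [e, ← hd i j, ih]
    intro x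
    have := key (Finset.univ.filter fun l => x l = true)
    simpa using this
  -- adding a set of coordinates
  have hadd : ∀ (S : Finset (Fin k)) (x : Fin k → Bool),
      xor (f x) (f fun l => xor (x l) (decide (l ∈ S))) =
      xor (f fun _ => false) (f fun l => decide (l ∈ S)) := by
    intro S
    induction S using Finset.induction_on with
    | empty => intro x; simp
    | insert j S hj ih =>
      intro x
      have e : ∀ x : Fin k → Bool, (fun l => xor (x l) (decide (l ∈ insert j S))) =
          flp j fun l => xor (x l) (decide (l ∈ S)) := by
        intro x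
        unfold flp
        funext l
        by_cases hl : l = j
        · subst hl
          simp [hj]
        · simp [Finset.mem_insert, hl]
      have e0 := e fun _ => false
      simp only [Bool.false_xor] at e0
      rw [e, e0]
      have h1 := hd' j fun l => xor (x l) (decide (l ∈ S))
      have h2 := hd' j fun l => decide (l ∈ S)
      have h3 := ih x
      rw [← h2] at h1
      revert h1 h3
      cases f x <;> cases f (fun l => xor (x l) (decide (l ∈ S))) <;>
        cases f (flp j fun l => xor (x l) (decide (l ∈ S))) <;>
        cases f (fun l => decide (l ∈ S)) <;> cases f (flp j fun l => decide (l ∈ S)) <;>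
        cases f (fun _ => false) <;> simp
  have hadd' : ∀ x y : Fin k → Bool, xor (f x) (f fun l => xor (x l) (y l)) =
      xor (f fun _ => false) (f y) := by
    intro x y
    have := hadd (Finset.univ.filter fun l => y l = true) x
    simpa using this
  have h1 := hadd' x y
  have h2 := hadd' (fun l => xor (x l) (y l)) z
  revert h1 h2
  cases f x <;> cases f y <;> cases f z <;> cases f (fun l => xor (x l) (y l)) <;>
    cases f (fun l => xor (xor (x l) (y l)) (z l)) <;> cases f (fun _ => false) <;> simp

/-- `AND` in one application of a monotone function which is no disjunction -/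
theorem cl_and_of_mono {k : ℕ} {F : Set (BF k)} {f : BF k} (hf : f ∈ F)
    (hm : ∀ x y : Fin k → Bool, (∀ l, x l = true → y l = true) → f x = true → f y = true)
    (h : ¬ ∀ x y, f (fun l => x l || y l) = (f x || f y)) : Cl F 2 and2 := by
  push Not at h
  obtain ⟨x, y, hxy⟩ := h
  have hx : f x = true → f (fun l => x l || y l) = true := hm _ _ fun l hl => by simp [hl]
  have hy : f y = true → f (fun l => x l || y l) = true := hm _ _ fun l hl => by simp [hl]
  have hx0 : f x = false := by
    cases h1 : f x
    · rfl
    · exact absurd (by rw [hx h1, h1, Bool.true_or]) hxy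
  have hy0 : f y = false := by
    cases h1 : f y
    · rfl
    · exact absurd (by rw [hy h1, h1, Bool.or_true]) hxy
  have hxy1 : f (fun l => x l || y l) = true := by
    cases h1 : f (fun l => x l || y l)
    · exact absurd (by rw [h1, hx0, hy0]; rfl) hxy
    · rfl
  have h := Cl.comp hf (K := 2) (g := fun l => fun z => if x l = true then
      (if y l = true then true else z 0) else (if y l = true then z 1 else false))
    (fun l => cl_ite _ (cl_ite _ (Cl.const true) (Cl.var 0)) (cl_ite _ (Cl.var 1) (Cl.const false)))
  refine (?_ : (fun z : Fin 2 → Bool => f fun l => if x l = true then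
      (if y l = true then true else z 0) else (if y l = true then z 1 else false)) = and2) ▸ h
  funext z
  unfold and2
  have hle : ∀ z : Fin 2 → Bool, (z 0 = false → f (fun l => if x l = true then
      (if y l = true then true else z 0) else (if y l = true then z 1 else false)) = false) ∧
      (z 1 = false → f (fun l => if x l = true then
      (if y l = true then true else z 0) else (if y l = true then z 1 else false)) = false) := by
    intro z
    constructor
    · intro h0
      by_contra hc
      rw [Bool.not_eq_false] at hc
      have := hm _ y (fun l hl => by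
        revert hl
        rw [h0]
        split_ifs with h1 h2 h3 <;> simp_all) hc
      rw [hy0] at this
      exact Bool.false_ne_true this
    · intro h0
      by_contra hc
      rw [Bool.not_eq_false] at hc
      have := hm _ x (fun l hl => by
        revert hl
        rw [h0]
        split_ifs with h1 h2 h3 <;> simp_all) hc
      rw [hx0] at this
      exact Bool.false_ne_true this
  rcases Bool.eq_false_or_eq_true (z 0) with h0 | h0
  · rcases Bool.eq_false_or_eq_true (z 1) with h1 | h1
    · have e : (fun l => if x l = true then (if y l = true then true else z 0) else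
          (if y l = true then z 1 else false)) = fun l => x l || y l := by
        funext l
        rw [h0, h1]
        cases x l <;> cases y l <;> rfl
      rw [e, hxy1, h0, h1]
      rfl
    · rw [(hle z).2 h1, h1, Bool.and_false]
  · rw [(hle z).1 h0, h0, Bool.false_and]

/-- `OR` in one application of a monotone function which is no conjunction -/
theorem cl_or_of_mono {k : ℕ} {F : Set (BF k)} {f : BF k} (hf : f ∈ F)
    (hm : ∀ x y : Fin k → Bool, (∀ l, x l = true → y l = true) → f x = true → f y = true)
    (h : ¬ ∀ x y, f (fun l => x l && y l) = (f x && f y)) : Cl F 2 or2 := by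
  push Not at h
  obtain ⟨x, y, hxy⟩ := h
  have hx : f (fun l => x l && y l) = true → f x = true := hm _ _ fun l hl => by
    simp only [Bool.and_eq_true] at hl
    exact hl.1
  have hy : f (fun l => x l && y l) = true → f y = true := hm _ _ fun l hl => by
    simp only [Bool.and_eq_true] at hl
    exact hl.2
  have hxy0 : f (fun l => x l && y l) = false := by
    cases h1 : f (fun l => x l && y l)
    · rfl
    · exact absurd (by rw [h1, hx h1, hy h1]; rfl) hxy
  have hx1 : f x = true := by
    cases h1 : f x
    · exact absurd (by rw [hxy0, h1]; rfl) hxy
    · rfl
  have hy1 : f y = true := by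
    cases h1 : f y
    · exact absurd (by rw [hxy0, h1]; simp) hxy
    · rfl
  have h := Cl.comp hf (K := 2) (g := fun l => fun z => if x l = true then
      (if y l = true then true else z 0) else (if y l = true then z 1 else false))
    (fun l => cl_ite _ (cl_ite _ (Cl.const true) (Cl.var 0)) (cl_ite _ (Cl.var 1) (Cl.const false)))
  refine (?_ : (fun z : Fin 2 → Bool => f fun l => if x l = true then
      (if y l = true then true else z 0) else (if y l = true then z 1 else false)) = or2) ▸ h
  funext z
  unfold or2
  rcases Bool.eq_false_or_eq_true (z 0) with h0 | h0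
  · have h2 : f (fun l => if x l = true then (if y l = true then true else z 0) else
        (if y l = true then z 1 else false)) = true := hm x _ (fun l hl => by
      rw [h0, if_pos hl]
      split_ifs <;> rfl) hx1
    rw [h2, h0, Bool.true_or]
  · rcases Bool.eq_false_or_eq_true (z 1) with h1 | h1
    · have h2 : f (fun l => if x l = true then (if y l = true then true else z 0) else
          (if y l = true then z 1 else false)) = true := hm y _ (fun l hl => by
        rw [h1, if_pos hl, if_pos hl]
        split_ifs <;> rfl) hy1
      rw [h2, h1, Bool.or_true]
    · have e : (fun l => if x l = true then (if y l = true then true else z 0) else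
          (if y l = true then z 1 else false)) = fun l => x l && y l := by
        funext l
        rw [h0, h1]
        cases x l <;> cases y l <;> rfl
      rw [e, hxy0, h0, h1]
      rfl

/-- `AND` from `NOT` and a function with a nonzero second difference -/
theorem cl_and_of_flp {k : ℕ} {F : Set (BF k)} {f : BF k} (hf : f ∈ F)
    (hnot : ∀ {g : BF 2}, Cl F 2 g → Cl F 2 (fun z => !(g z))) {i j : Fin k} (hij : i ≠ j)
    {x : Fin k → Bool}
    (h : xor (xor (f x) (f (flp i x))) (xor (f (flp j x)) (f (flp i (flp j x)))) = true) :
    Cl F 2 nand2 := by
  -- the four values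
  have e : ∀ a b : Bool, (fun l => if l = i then xor (x i) a else if l = j then xor (x j) b
      else x l) = (if b then (if a then flp i (flp j x) else flp j x) else
      (if a then flp i x else x)) := by
    intro a b
    funext l
    cases a <;> cases b <;> by_cases hli : l = i <;> by_cases hlj : l = j <;>
      simp_all [flp, Function.update_of_ne]
  -- the value at `x` with the coordinates `i`, `j` changed by `α z`, `β z`
  have hφ : ∀ (α β : BF 2), Cl F 2 α → Cl F 2 β → Cl F 2 (fun z => if β z then
      (if α z then f (flp i (flp j x)) else f (flp j x)) else
      (if α z then f (flp i x) else f x)) := by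
    intro α β hα hβ
    have h1 := Cl.comp hf (g := fun l => fun z => if l = i then xor (x i) (α z) else
      if l = j then xor (x j) (β z) else x l) fun l => cl_ite _ (by
        cases x i
        · simpa using hα
        · simpa using hnot hα) (cl_ite _ (by
        cases x j
        · simpa using hβ
        · simpa using hnot hβ) (Cl.const _))
    have e2 : (fun z : Fin 2 → Bool => f fun l => if l = i then xor (x i) (α z) else
        if l = j then xor (x j) (β z) else x l) = fun z => if β z then
        (if α z then f (flp i (flp j x)) else f (flp j x)) else
        (if α z then f (flp i x) else f x) := by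
      funext z
      rw [e (α z) (β z)]
      split_ifs <;> rfl
    rwa [e2] at h1
  have v0 : Cl F 2 (fun z => z 0) := Cl.var 0
  have v1 : Cl F 2 (fun z => z 1) := Cl.var 1
  have n0 := hnot v0
  have n1 := hnot v1
  -- the eight functions with an odd number of ones: `f x`, ..
  have c1 := hφ _ _ v0 v1
  have c2 := hφ _ _ n0 v1
  have c3 := hφ _ _ v0 n1
  have c4 := hφ _ _ n0 n1
  have d1 := hnot c1
  have d2 := hnot c2
  have d3 := hnot c3
  have d4 := hnot c4
  revert h c1 c2 c3 c4 d1 d2 d3 d4
  generalize f x = a00
  generalize f (flp i x) = a10
  generalize f (flp j x) = a01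
  generalize f (flp i (flp j x)) = a11
  intro h c1 c2 c3 c4 d1 d2 d3 d4
  have fin : ∀ g : BF 2, Cl F 2 g → (∀ z, g z = nand2 z) → Cl F 2 nand2 := by
    intro g hg hz
    rwa [funext hz] at hg
  cases a00 <;> cases a10 <;> cases a01 <;> cases a11 <;> first
    | exact absurd h (by decide)
    | (refine fin _ c1 (fun z => ?_); unfold nand2; cases z 0 <;> cases z 1 <;> rfl)
    | (refine fin _ c2 (fun z => ?_); unfold nand2; cases z 0 <;> cases z 1 <;> rfl)
    | (refine fin _ c3 (fun z => ?_); unfold nand2; cases z 0 <;> cases z 1 <;> rfl)
    | (refine fin _ c4 (fun z => ?_); unfold nand2; cases z 0 <;> cases z 1 <;> rfl)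
    | (refine fin _ d1 (fun z => ?_); unfold nand2; cases z 0 <;> cases z 1 <;> rfl)
    | (refine fin _ d2 (fun z => ?_); unfold nand2; cases z 0 <;> cases z 1 <;> rfl)
    | (refine fin _ d3 (fun z => ?_); unfold nand2; cases z 0 <;> cases z 1 <;> rfl)
    | (refine fin _ d4 (fun z => ?_); unfold nand2; cases z 0 <;> cases z 1 <;> rfl)

/-- Otherwise `NAND`, or `AND` and `OR`, are generated with constants. -/
theorem cl_gates {k : ℕ} {F : Set (BF k)} (h : ¬ (Affine F ∨ Disj F ∨ Conj F)) :
    Cl F 2 nand2 ∨ (Cl F 2 and2 ∧ Cl F 2 or2) := by
  push Not at h
  obtain ⟨h1, h2, h3⟩ := h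
  by_cases hm : ∀ f ∈ F, ∀ x y : Fin k → Bool, (∀ l, x l = true → y l = true) →
      f x = true → f y = true
  · refine Or.inr ⟨?_, ?_⟩
    · unfold Disj at h2
      push Not at h2
      obtain ⟨f, hf, x, y, hxy⟩ := h2
      exact cl_and_of_mono hf (hm f hf) fun h => hxy (h x y)
    · unfold Conj at h3
      push Not at h3
      obtain ⟨f, hf, x, y, hxy⟩ := h3
      exact cl_or_of_mono hf (hm f hf) fun h => hxy (h x y)
  · left
    push Not at hm
    obtain ⟨f, hf, x, y, hxy, hx, hy⟩ := hm
    have hnot : ∀ {g : BF 2}, Cl F 2 g → Cl F 2 (fun z => !(g z)) := fun hg =>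
      cl_not hf hxy hx (by simpa using hy) hg
    unfold Affine at h1
    push Not at h1
    obtain ⟨f', hf', a, b, c, habc⟩ := h1
    by_contra hc
    refine habc (affine_of_flp (fun i j hij x => ?_) a b c)
    by_contra h4
    exact hc (cl_and_of_flp hf' hnot hij (x := x) (by simpa using h4))

theorem exists_nc {k : ℕ} {F : Set (BF k)} (h : ¬ (Affine F ∨ Disj F ∨ Conj F)) :
    ∃ f ∈ F, ∃ x y, f x ≠ f y := by
  by_contra hc
  push Not at hc
  refine h (Or.inr (Or.inl fun f hf x y => ?_))
  rw [hc f hf _ x, hc f hf y x, Bool.or_self]

/-- `NAND` generates all Boolean functions. -/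
theorem cl_nand {K : ℕ} (f : BF K) : Cl ({nand2} : Set (BF 2)) K f := by
  have hn : ∀ g h : BF K, Cl ({nand2} : Set (BF 2)) K g → Cl ({nand2} : Set (BF 2)) K h →
      Cl ({nand2} : Set (BF 2)) K (fun x => !(g x && h x)) := by
    intro g h hg hh
    have := Cl.comp (F := ({nand2} : Set (BF 2))) (Set.mem_singleton nand2) (K := K)
      (g := fun l => if l = 0 then g else h) (fun l => by
        split_ifs
        · exact hg
        · exact hh)
    exact this
  have hnot : ∀ g : BF K, Cl ({nand2} : Set (BF 2)) K g →
      Cl ({nand2} : Set (BF 2)) K (fun x => !(g x)) := by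
    intro g hg
    have := hn g g hg hg
    simpa using this
  have hand : ∀ g h : BF K, Cl ({nand2} : Set (BF 2)) K g → Cl ({nand2} : Set (BF 2)) K h →
      Cl ({nand2} : Set (BF 2)) K (fun x => g x && h x) := by
    intro g h hg hh
    have := hnot _ (hn g h hg hh)
    simpa using this
  have hor : ∀ g h : BF K, Cl ({nand2} : Set (BF 2)) K g → Cl ({nand2} : Set (BF 2)) K h →
      Cl ({nand2} : Set (BF 2)) K (fun x => g x || h x) := by
    intro g h hg hh
    have := hn _ _ (hnot g hg) (hnot h hh)
    simpa using this
  -- the indicator of a point
  have hpt : ∀ (y : Fin K → Bool) (S : Finset (Fin K)), Cl ({nand2} : Set (BF 2)) K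
      (fun x => decide (∀ i ∈ S, x i = y i)) := by
    intro y S
    induction S using Finset.induction_on with
    | empty => simpa using Cl.const true
    | insert j S hj ih =>
      have h1 : Cl ({nand2} : Set (BF 2)) K (fun x => decide (x j = y j)) := by
        cases hy : y j
        · have := hnot _ (Cl.var j)
          simpa using this
        · simpa using Cl.var j
      have := hand _ _ h1 ih
      refine (?_ : (fun x : Fin K → Bool => decide (x j = y j) && decide (∀ i ∈ S, x i = y i)) =
        fun x => decide (∀ i ∈ insert j S, x i = y i)) ▸ this
      funext x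
      rw [← Bool.decide_and]
      simp [Finset.mem_insert]
  have hfin : ∀ S : Finset (Fin K → Bool), Cl ({nand2} : Set (BF 2)) K
      (fun x => decide (x ∈ S)) := by
    intro S
    induction S using Finset.induction_on with
    | empty => simpa using Cl.const false
    | insert y S hy ih =>
      have := hor _ _ (hpt y Finset.univ) ih
      refine (?_ : (fun x : Fin K → Bool => decide (∀ i ∈ Finset.univ, x i = y i) ||
        decide (x ∈ S)) = fun x => decide (x ∈ insert y S)) ▸ this
      funext x
      rw [← Bool.decide_or]
      simp [Finset.mem_insert, funext_iff]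
  have := hfin (Finset.univ.filter fun x => f x = true)
  simpa using this

end Pool.Agent.H63PL
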