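import Pool.Agent.LinU.PD
import Pool.Agent.Grz.Matrices

/-!
# Boolean rules: definitions
-/

set_option autoImplicit false

namespace Pool.Agent.H63PL

open Finset Pool.Agent.Grz Pool.Agent.LinU

/-- Boolean functions of arity `k` -/
abbrev BF (k : ℕ) := (Fin k → Bool) → Bool

/-- The numbers below `2 ^ N` are words of `N` bits. The map `T` is an `F`-map: each bit of `T z` is
a function in `F` of bits of `z`, or a bit of `z`. -/
def RuleMap {k : ℕ} (F : Set (BF k)) (N : ℕ) (T : ℕ → ℕ) : Prop :=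
  ∀ i < N, (∃ j < N, ∀ z < 2 ^ N, (T z).testBit i = z.testBit j) ∨
    ∃ f ∈ F, ∃ a : Fin k → ℕ, (∀ l, a l < N) ∧
      ∀ z < 2 ^ N, (T z).testBit i = f (fun l => z.testBit (a l))

/-- The iterates of the definable `F`-maps on `N` bits, `2 ^ N ≤ B`, are in `DFun`. -/
def IterF {k : ℕ} (F : Set (BF k)) : Prop :=
  ∀ (n : ℕ) (N B x t : (Fin n → ℕ) → ℕ) (T : ℕ → (Fin n → ℕ) → ℕ),
    DFun n N → DFun n B → DFun n x → DFun n t →
    DFun (n + 1) (fun w => T (w 0) fun i => w i.succ) →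
    (∀ v, 2 ^ N v ≤ B v) → (∀ v z, z < 2 ^ N v → T z v < 2 ^ N v) →
    (∀ v, RuleMap F (N v) fun z => T z v) →
    (∀ v, x v < 2 ^ N v) → DFun n (fun v => (fun z => T z v)^[t v] (x v))

/-- all functions in `F` are affine over `ℤ/2` -/
def Affine {k : ℕ} (F : Set (BF k)) : Prop :=
  ∀ f ∈ F, ∀ x y z, f (fun l => xor (xor (x l) (y l)) (z l)) = xor (xor (f x) (f y)) (f z)

/-- all functions in `F` are disjunctions of variables, or constant -/
def Disj {k : ℕ} (F : Set (BF k)) : Prop :=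
  ∀ f ∈ F, ∀ x y, f (fun l => x l || y l) = (f x || f y)

/-- all functions in `F` are conjunctions of variables, or constant -/
def Conj {k : ℕ} (F : Set (BF k)) : Prop :=
  ∀ f ∈ F, ∀ x y, f (fun l => x l && y l) = (f x && f y)

/-! ### Index maps -/

/-- the word with the bits `f 0`, .., `f (N - 1)` -/
def code (N : ℕ) (f : ℕ → Bool) : ℕ := ∑ i ∈ range N, (f i).toNat * 2 ^ i

/-- the map: bit `i` of the value is the function `c i` at the bits `a 0 i`, `a 1 i`, ..; for
`r ≤ c i` it is the bit `a 0 i` -/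
def ix {r k : ℕ} (F : Fin r → BF k) (N : ℕ) (c : ℕ → ℕ) (a : ℕ → ℕ → ℕ) (z : ℕ) : ℕ :=
  code N fun i => if h : c i < r then F ⟨c i, h⟩ (fun l => z.testBit (a l i)) else
    z.testBit (a 0 i)

/-- the iterates of the maps `ix` with definable `c`, `a` are in `DFun` -/
def IxIter {r k : ℕ} (F : Fin r → BF k) : Prop :=
  ∀ (n : ℕ) (N B x t : (Fin n → ℕ) → ℕ) (c : ℕ → (Fin n → ℕ) → ℕ)
    (a : ℕ → ℕ → (Fin n → ℕ) → ℕ), DFun n N → DFun n B → DFun n x → DFun n t →
    DFun (n + 1) (fun w => c (w 0) fun i => w i.succ) →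
    (∀ l, DFun (n + 1) (fun w => a l (w 0) fun i => w i.succ)) →
    (∀ v, 2 ^ N v ≤ B v) → (∀ v l i, i < N v → a l i v < N v) → (∀ v, x v < 2 ^ N v) →
    DFun n (fun v => (ix F (N v) (fun i => c i v) (fun l i => a l i v))^[t v] (x v))

/-- the closure of `F` under composition, with the variables and the constants -/
inductive Cl {k : ℕ} (F : Set (BF k)) (K : ℕ) : BF K → Prop
  | var (i : Fin K) : Cl F K (fun x => x i)
  | const (b : Bool) : Cl F K (fun _ => b)
  | comp {f : BF k} (hf : f ∈ F) {g : Fin k → BF K} (hg : ∀ l, Cl F K (g l)) :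
      Cl F K (fun x => f fun l => g l x)

def nand2 : BF 2 := fun x => !(x 0 && x 1)
def and2 : BF 2 := fun x => x 0 && x 1
def or2 : BF 2 := fun x => x 0 || x 1

/-! ### Codes -/

theorem dg_code' {N : ℕ} {f : ℕ → Bool} {i : ℕ} (hi : i < N) : dg 2 (code N f) i = (f i).toNat :=
  dg_code two_pos (fun i => (f i).toNat) (fun i _ => Bool.toNat_lt _) hi

theorem code_lt (N : ℕ) (f : ℕ → Bool) : code N f < 2 ^ N :=
  lt_code two_pos _ fun i _ => Bool.toNat_lt _

theorem testBit_dg (z i : ℕ) : z.testBit i = decide (dg 2 z i = 1) := by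
  unfold dg
  rw [Nat.testBit_eq_decide_div_mod_eq]

theorem dg_testBit (z i : ℕ) : dg 2 z i = (z.testBit i).toNat := by
  rw [testBit_dg]
  have : dg 2 z i < 2 := Nat.mod_lt _ two_pos
  by_cases h : dg 2 z i = 1
  · rw [decide_eq_true h, h]
    rfl
  · rw [decide_eq_false h]
    show _ = 0
    omega

theorem testBit_code {N : ℕ} {f : ℕ → Bool} {i : ℕ} (hi : i < N) :
    (code N f).testBit i = f i := by
  rw [testBit_dg, dg_code' hi]
  cases f i <;> rfl

theorem ext_testBit {N x y : ℕ} (hx : x < 2 ^ N) (hy : y < 2 ^ N)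
    (h : ∀ i < N, x.testBit i = y.testBit i) : x = y :=
  dg_ext hx hy fun i hi => by rw [dg_testBit, dg_testBit, h i hi]

/-- codes are definable -/
theorem code_def {n : ℕ} {N B : (Fin n → ℕ) → ℕ} {f : ℕ → (Fin n → ℕ) → Bool} (hN : DFun n N)
    (hB : DFun n B) (hNB : ∀ v, 2 ^ N v ≤ B v)
    (hf : DFun (n + 1) (fun w => (f (w 0) fun i => w i.succ).toNat)) :
    DFun n (fun v => code (N v) fun i => f i v) :=
  dfun_code (m := fun _ => 2) (d := N) (B := B) (g := fun i v => (f i v).toNat) (DFun.const 2) hN hB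
    hf (fun _ => le_rfl) hNB

theorem testBit_def {n : ℕ} {z i : (Fin n → ℕ) → ℕ} (hz : DFun n z) (hi : DFun n i) :
    DFun n (fun v => ((z v).testBit (i v)).toNat) := by
  have h := dfun_dg (DFun.const 2) hz hi fun _ => le_rfl
  refine (show (fun v => ((z v).testBit (i v)).toNat) = _ from ?_) ▸ h
  funext v
  exact (dg_testBit _ _).symm

end Pool.Agent.H63PL
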