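import Pool.Agent.H63PL.Def
import Pool.Agent.PTr.Orbit2

/-!
# Dual rails

A word of `N` bits is written together with its complement; `NAND` of two bits is the `OR` of the
complements, and its complement is the `AND` of the bits.
-/

set_option autoImplicit false

namespace Pool.Agent.H63PL

open Finset Pool.Agent.Grz Pool.Agent.GAvg Pool.Agent.PTr Pool.Agent.LinU

/-- the two rails -/
def enc (N z : ℕ) : ℕ := code (N + N) fun i => if i < N then z.testBit i else !z.testBit (i - N)

/-- the rules -/
def dc (N : ℕ) (c : ℕ → ℕ) (i : ℕ) : ℕ :=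
  if i < N then (if c i < 1 then 1 else 2) else (if c (i - N) < 1 then 0 else 2)

/-- the inputs -/
def da (N : ℕ) (c : ℕ → ℕ) (a : ℕ → ℕ → ℕ) (l i : ℕ) : ℕ :=
  if i < N then (if c i < 1 then N + a l i else a l i)
  else (if c (i - N) < 1 then a l (i - N) else N + a l (i - N))

theorem enc_lo {N z j : ℕ} (hj : j < N) : (enc N z).testBit j = z.testBit j := by
  rw [enc, testBit_code (by omega), if_pos hj]

theorem enc_hi {N z j : ℕ} (hj : j < N) : (enc N z).testBit (N + j) = !z.testBit j := by
  rw [enc, testBit_code (by omega), if_neg (by omega), Nat.add_sub_cancel_left]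

theorem ix_enc {N : ℕ} {c : ℕ → ℕ} {a : ℕ → ℕ → ℕ} (ha : ∀ l i, i < N → a l i < N) (z : ℕ) :
    ix (![and2, or2] : Fin 2 → BF 2) (N + N) (dc N c) (da N c a) (enc N z) =
      enc N (ix (fun _ : Fin 1 => nand2) N c a z) := by
  refine ext_testBit (code_lt _ _) (code_lt _ _) fun i hi => ?_
  rw [ix, testBit_code hi]
  by_cases h1 : i < N
  · rw [enc_lo h1, ix, testBit_code h1]
    by_cases h2 : c i < 1
    · have e : dc N c i = 1 := by rw [dc, if_pos h1, if_pos h2]
      have ea : ∀ l, da N c a l i = N + a l i := fun l => by rw [da, if_pos h1, if_pos h2]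
      rw [dif_pos h2]
      simp only [e, ea, enc_hi (ha _ i h1)]
      simp [or2, nand2]
    · have e : dc N c i = 2 := by rw [dc, if_pos h1, if_neg h2]
      have ea : ∀ l, da N c a l i = a l i := fun l => by rw [da, if_pos h1, if_neg h2]
      rw [dif_neg h2]
      simp only [e, ea, enc_lo (ha _ i h1)]
      simp
  · obtain ⟨j, rfl⟩ := Nat.exists_eq_add_of_le (Nat.le_of_not_lt h1)
    have hj : j < N := by omega
    rw [enc_hi hj, ix, testBit_code hj]
    by_cases h2 : c j < 1
    · have e : dc N c (N + j) = 0 := by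
        rw [dc, if_neg h1, Nat.add_sub_cancel_left, if_pos h2]
      have ea : ∀ l, da N c a l (N + j) = a l j := fun l => by
        rw [da, if_neg h1, Nat.add_sub_cancel_left, if_pos h2]
      rw [dif_pos h2]
      simp only [e, ea, enc_lo (ha _ j hj)]
      simp [and2, nand2]
    · have e : dc N c (N + j) = 2 := by
        rw [dc, if_neg h1, Nat.add_sub_cancel_left, if_neg h2]
      have ea : ∀ l, da N c a l (N + j) = N + a l j := fun l => by
        rw [da, if_neg h1, Nat.add_sub_cancel_left, if_neg h2]
      rw [dif_neg h2]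
      simp only [e, ea, enc_hi (ha _ j hj)]
      simp

theorem ix_enc_iter {N : ℕ} {c : ℕ → ℕ} {a : ℕ → ℕ → ℕ} (ha : ∀ l i, i < N → a l i < N)
    (x t : ℕ) :
    (ix (![and2, or2] : Fin 2 → BF 2) (N + N) (dc N c) (da N c a))^[t] (enc N x) =
      enc N ((ix (fun _ : Fin 1 => nand2) N c a)^[t] x) := by
  induction t with
  | zero => rfl
  | succ t ih => rw [Function.iterate_succ_apply', ih, ix_enc ha, Function.iterate_succ_apply']

theorem da_lt {N : ℕ} {c : ℕ → ℕ} {a : ℕ → ℕ → ℕ} (ha : ∀ l i, i < N → a l i < N) (l i : ℕ)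
    (hi : i < N + N) : da N c a l i < N + N := by
  unfold da
  split_ifs with h1
  · have := ha l i h1
    omega
  · have := ha l i h1
    omega
  · have := ha l (i - N) (by omega)
    omega
  · have := ha l (i - N) (by omega)
    omega

theorem dual (H : IxIter (![and2, or2] : Fin 2 → BF 2)) : IxIter (fun _ : Fin 1 => nand2) := by
  intro n N B x t c a hN hB hx ht hc ha hNB hab hxb
  have hNN : DFun n (fun v => N v + N v) := hN.add hN
  have hBB : DFun n (fun v => B v * B v) := hB.mul hB
  have h2 : ∀ v, 2 ^ (N v + N v) ≤ B v * B v := fun v => by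
    rw [pow_add]
    exact Nat.mul_le_mul (hNB v) (hNB v)
  have hi : Delta0 (n + 1) (fun w => w 0 < N fun i => w i.succ) :=
    Delta0.ltFun (DFun.proj 0) hN.weak
  have hsub : DFun (n + 1) (fun w => w 0 - N fun i => w i.succ) := (DFun.proj 0).sub hN.weak
  have hc' : DFun (n + 1) (fun w => c (w 0 - N fun i => w i.succ) fun i => w i.succ) :=
    DFun.app hc hsub fun i => DFun.proj _
  have ha' : ∀ l, DFun (n + 1) (fun w => a l (w 0 - N fun i => w i.succ) fun i => w i.succ) :=
    fun l => DFun.app (ha l) hsub fun i => DFun.proj _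
  -- the start
  have hbx : DFun (n + 1) (fun w => (if w 0 < N (fun i => w i.succ) then
      (x fun i => w i.succ).testBit (w 0) else
      !(x fun i => w i.succ).testBit (w 0 - N fun i => w i.succ)).toNat) := by
    have b1 := testBit_def hx.weak (DFun.proj (n := n + 1) 0)
    have b2 := testBit_def hx.weak hsub
    have h3 := DFun.ite hi b1 ((DFun.const 1).sub b2)
    refine cast (congrArg (DFun (n + 1)) ?_) h3
    funext w
    split_ifs with h
    · rfl
    · cases (x fun i => w i.succ).testBit (w 0 - N fun i => w i.succ) <;> rfl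
  have hx' : DFun n (fun v => enc (N v) (x v)) := by
    have h3 := code_def (N := fun v => N v + N v) (B := fun v => B v * B v)
      (f := fun i v => if i < N v then (x v).testBit i else !(x v).testBit (i - N v)) hNN hBB h2 hbx
    exact h3
  have hdc : DFun (n + 1) (fun w => dc (N fun i => w i.succ) (fun i => c i fun i => w i.succ)
      (w 0)) := by
    unfold dc
    exact DFun.ite hi (DFun.ite (Delta0.ltFun hc (DFun.const 1)) (DFun.const 1) (DFun.const 2))
      (DFun.ite (Delta0.ltFun hc' (DFun.const 1)) (DFun.const 0) (DFun.const 2))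
  have hda : ∀ l, DFun (n + 1) (fun w => da (N fun i => w i.succ) (fun i => c i fun i => w i.succ)
      (fun l i => a l i fun i => w i.succ) l (w 0)) := by
    intro l
    unfold da
    exact DFun.ite hi
      (DFun.ite (Delta0.ltFun hc (DFun.const 1)) (hN.weak.add (ha l)) (ha l))
      (DFun.ite (Delta0.ltFun hc' (DFun.const 1)) (ha' l) (hN.weak.add (ha' l)))
  have hres := H n (fun v => N v + N v) (fun v => B v * B v) (fun v => enc (N v) (x v)) t
    (fun i v => dc (N v) (fun i => c i v) i)
    (fun l i v => da (N v) (fun i => c i v) (fun l i => a l i v) l i)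
    hNN hBB hx' ht hdc hda h2 (fun v l i hi => da_lt (fun l i hi => hab v l i hi) l i hi) (fun v => code_lt _ _)
  have hbit := testBit_def hres.weak (DFun.proj (n := n + 1) 0)
  have hfin := code_def (f := fun i v => ((ix (![and2, or2] : Fin 2 → BF 2) (N v + N v)
    (fun i => dc (N v) (fun i => c i v) i)
    (fun l i => da (N v) (fun i => c i v) (fun l i => a l i v) l i))^[t v]
      (enc (N v) (x v))).testBit i) hN hB hNB hbit
  refine cast (congrArg (DFun n) ?_) hfin
  funext v
  have hlt : (ix (fun _ : Fin 1 => nand2) (N v) (fun i => c i v) (fun l i => a l i v))^[t v]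
      (x v) < 2 ^ N v := by
    cases h : t v with
    | zero => exact hxb v
    | succ s =>
      rw [Function.iterate_succ_apply']
      exact code_lt _ _
  refine ext_testBit (code_lt _ _) hlt fun i hi => ?_
  rw [testBit_code hi]
  show ((ix (![and2, or2] : Fin 2 → BF 2) (N v + N v) (dc (N v) fun i => c i v)
    (da (N v) (fun i => c i v) fun l i => a l i v))^[t v] (enc (N v) (x v))).testBit i = _
  rw [ix_enc_iter (fun l i hi => hab v l i hi), enc_lo hi]

end Pool.Agent.H63PL
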