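import Pool.Agent.H63PL.Def
import Pool.Agent.PTr.Orbit2

/-!
# Compositions and constants
-/

set_option autoImplicit false

namespace Pool.Agent.H63PL

open Finset Pool.Agent.Grz Pool.Agent.GAvg Pool.Agent.PTr Pool.Agent.LinU

theorem dfun_case (r : ℕ) {n : ℕ} {c g : (Fin n → ℕ) → ℕ} {f : ℕ → (Fin n → ℕ) → ℕ}
    (hc : DFun n c) (hf : ∀ s, DFun n (f s)) (hg : DFun n g) :
    DFun n (fun v => if c v < r then f (c v) v else g v) := by
  induction r with
  | zero =>
    refine (show (fun v => if c v < 0 then f (c v) v else g v) = g from ?_) ▸ hg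
    funext v
    rw [if_neg (by omega)]
  | succ r ih =>
    have h := DFun.ite (Delta0.eqFun hc (DFun.const r)) (hf r) ih
    refine (show (fun v => if c v < r + 1 then f (c v) v else g v) = _ from ?_) ▸ h
    funext v
    by_cases h1 : c v = r
    · rw [if_pos h1, if_pos (by omega), h1]
    · rw [if_neg h1]
      by_cases h2 : c v < r
      · rw [if_pos h2, if_pos (by omega)]
      · rw [if_neg h2, if_neg (by omega)]

/-- Boolean functions of definable bits -/
theorem bf_def {k : ℕ} (f : BF k) {n : ℕ} {b : Fin k → (Fin n → ℕ) → Bool}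
    (hb : ∀ l, DFun n (fun v => (b l v).toNat)) : DFun n (fun v => (f fun l => b l v).toNat) := by
  induction k with
  | zero =>
    refine (show (fun v => (f fun l => b l v).toNat) = fun _ => (f fun _ => false).toNat from ?_) ▸
      DFun.const (n := n) (f fun _ => false).toNat
    funext v
    congr 2
    funext l
    exact l.elim0
  | succ k ih =>
    have h1 : ∀ u : Bool, DFun n (fun v => (f (Fin.cons u fun l => b l.succ v)).toNat) := fun u =>
      ih (fun y => f (Fin.cons u y)) fun l => hb l.succ
    have h2 := DFun.ite (Delta0.eqFun (hb 0) (DFun.const 1)) (h1 true) (h1 false)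
    refine (show (fun v => (f fun l => b l v).toNat) = _ from ?_) ▸ h2
    funext v
    have h3 : (fun l => b l v) = Fin.cons (b 0 v) fun l => b l.succ v := by
      funext l
      refine Fin.cases ?_ (fun l => ?_) l
      · rfl
      · rfl
    rw [h3]
    cases b 0 v
    · rfl
    · rfl

/-- a number is definable if its bits are the low bits of a definable number -/
theorem low_def {n : ℕ} {N B W Y : (Fin n → ℕ) → ℕ} (hN : DFun n N) (hB : DFun n B)
    (hNB : ∀ v, 2 ^ N v ≤ B v) (hW : DFun n W) (hY : ∀ v, Y v < 2 ^ N v)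
    (h : ∀ v, ∀ i < N v, (W v).testBit i = (Y v).testBit i) : DFun n Y := by
  have h1 := code_def (f := fun i v => (W v).testBit i) hN hB hNB
    (testBit_def hW.weak (DFun.proj 0))
  refine (show Y = _ from ?_) ▸ h1
  funext v
  exact ext_testBit (hY v) (code_lt _ _) fun i hi => by rw [testBit_code hi, h v i hi]

theorem testBit_ix {r k : ℕ} (F : Fin r → BF k) {N : ℕ} (c : ℕ → ℕ) (a : ℕ → ℕ → ℕ) (z : ℕ)
    {i : ℕ} (hi : i < N) : (ix F N c a z).testBit i = if h : c i < r then
      F ⟨c i, h⟩ (fun l => z.testBit (a l i)) else z.testBit (a 0 i) :=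
  testBit_code hi

theorem ix_lt {r k : ℕ} (F : Fin r → BF k) (N : ℕ) (c : ℕ → ℕ) (a : ℕ → ℕ → ℕ) (z : ℕ) :
    ix F N c a z < 2 ^ N := code_lt _ _

theorem iter_ix_lt {r k : ℕ} (F : Fin r → BF k) (N : ℕ) (c : ℕ → ℕ) (a : ℕ → ℕ → ℕ) {x : ℕ}
    (hx : x < 2 ^ N) (t : ℕ) : (ix F N c a)^[t] x < 2 ^ N := by
  cases t with
  | zero => exact hx
  | succ t =>
    rw [Function.iterate_succ_apply']
    exact ix_lt _ _ _ _ _

/-! ### Constants -/

/-- variables and constants -/
def atom {K : ℕ} : Fin K ⊕ Bool → BF K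
  | .inl q => fun x => x q
  | .inr b => fun _ => b

/-- the place of an atom -/
def plc {K : ℕ} (N : ℕ) (a : ℕ → ℕ) : Fin K ⊕ Bool → ℕ
  | .inl q => a q
  | .inr b => N + b.toNat

theorem testBit_plc {K N z z' : ℕ} {a : ℕ → ℕ} (ha : ∀ l, a l < N)
    (h : ∀ i < N, z'.testBit i = z.testBit i) (h0 : z'.testBit N = false)
    (h1 : z'.testBit (N + 1) = true) (p : Fin K ⊕ Bool) :
    z'.testBit (plc N a p) = atom p (fun q : Fin K => z.testBit (a q)) := by
  rcases p with q | b
  · exact h _ (ha _)
  · cases b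
    · exact h0
    · exact h1

/-- functions of atoms -/
def At {k r K : ℕ} (F₀ : Fin r → BF k) (G : BF K) (J : ℕ) (π : ℕ → Fin K ⊕ Bool) : Prop :=
  G = if h : J < r then fun x => F₀ ⟨J, h⟩ (fun l => atom (π l) x) else atom (π 0)

theorem sim_one {k r : ℕ} {F₀ : Fin r → BF k} (hnc : ∃ j x y, F₀ j x ≠ F₀ j y) (H : IxIter F₀)
    {K r' : ℕ} (G : Fin r' → BF K) (hG : ∀ s, ∃ J π, At F₀ (G s) J π) : IxIter G := by
  obtain ⟨j₀, e₀, e₁, he₀, he₁⟩ : ∃ j₀ e₀ e₁, F₀ j₀ e₀ = false ∧ F₀ j₀ e₁ = true := by
    obtain ⟨j, x, y, hxy⟩ := hnc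
    cases hx : F₀ j x
    · cases hy : F₀ j y
      · exact absurd (hx.trans hy.symm) hxy
      · exact ⟨j, x, y, hx, hy⟩
    · cases hy : F₀ j y
      · exact ⟨j, y, x, hy, hx⟩
      · exact absurd (hx.trans hy.symm) hxy
  choose J π hJ using hG
  intro n N B x t c a hN hB hx ht hc ha hNB haN hxN
  -- data extended to natural numbers
  obtain ⟨J', hJ'⟩ : ∃ J' : ℕ → ℕ, J' = fun s => if h : s < r' then J ⟨s, h⟩ else r := ⟨_, rfl⟩
  obtain ⟨p', hp'⟩ : ∃ p' : ℕ → ℕ → ℕ → (ℕ → ℕ) → ℕ, p' = fun s l N a =>
    if h : s < r' then plc N a (π ⟨s, h⟩ l) else a 0 := ⟨_, rfl⟩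
  obtain ⟨ec, hec⟩ : ∃ ec : ℕ → ℕ, ec = fun l => if h : l < k then (e₀ ⟨l, h⟩).toNat else 0 :=
    ⟨_, rfl⟩
  obtain ⟨ed, hed⟩ : ∃ ed : ℕ → ℕ, ed = fun l => if h : l < k then (e₁ ⟨l, h⟩).toNat else 0 :=
    ⟨_, rfl⟩
  obtain ⟨c', hc'⟩ : ∃ c' : ℕ → (Fin n → ℕ) → ℕ, c' = fun i v =>
    if i < N v then (if c i v < r' then J' (c i v) else r) else j₀ := ⟨_, rfl⟩
  obtain ⟨a', ha'⟩ : ∃ a' : ℕ → ℕ → (Fin n → ℕ) → ℕ, a' = fun l i v =>
    if i < N v then (if c i v < r' then p' (c i v) l (N v) (fun q => a q i v) else a 0 i v) else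
      if i = N v then N v + ec l else N v + ed l := ⟨_, rfl⟩
  obtain ⟨x', hx'⟩ : ∃ x' : (Fin n → ℕ) → ℕ, x' = fun v => code (N v + 2) fun i =>
    if i < N v then (x v).testBit i else decide (i = N v + 1) := ⟨_, rfl⟩
  have hN' : DFun n (fun v => N v + 2) := hN.add (DFun.const 2)
  have hB' : DFun n (fun v => B v * 4) := hB.mul (DFun.const 4)
  have hNB' : ∀ v, 2 ^ (N v + 2) ≤ B v * 4 := fun v => by
    rw [pow_add]
    exact Nat.mul_le_mul_right _ (hNB v)
  have hi : DFun (n + 1) (fun w => w 0) := DFun.proj 0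
  have hlt : Delta0 (n + 1) (fun w => w 0 < N fun i => w i.succ) := Delta0.ltFun hi hN.weak
  have hcD : DFun (n + 1) (fun w => c' (w 0) fun i => w i.succ) := by
    rw [hc']
    exact DFun.ite hlt (dfun_case r' (f := fun s _ => J' s) hc (fun s => DFun.const _)
      (DFun.const r)) (DFun.const _)
  have haD : ∀ l, DFun (n + 1) (fun w => a' l (w 0) fun i => w i.succ) := by
    intro l
    rw [ha']
    refine DFun.ite hlt (dfun_case r' (f := fun s w => p' s l (N fun i => w i.succ)
      (fun q => a q (w 0) fun i => w i.succ)) hc (fun s => ?_) (ha 0))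
      (DFun.ite (Delta0.eqFun hi hN.weak) (hN.weak.add (DFun.const _))
        (hN.weak.add (DFun.const _)))
    rw [hp']
    by_cases hs : s < r'
    · simp only [dif_pos hs]
      rcases π ⟨s, hs⟩ l with q | b
      · exact ha q
      · exact hN.weak.add (DFun.const _)
    · simp only [dif_neg hs]
      exact ha 0
  have hxD : DFun n x' := by
    rw [hx']
    refine code_def hN' hB' hNB' ?_
    have h1 := DFun.ite hlt (testBit_def hx.weak hi)
      (DFun.ite (Delta0.eqFun hi (hN.weak.add (DFun.const 1))) (DFun.const 1) (DFun.const 0))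
    refine (show (fun w : Fin (n + 1) → ℕ => (if w 0 < N (fun i => w i.succ) then
      (x fun i => w i.succ).testBit (w 0) else
        decide (w 0 = N (fun i => w i.succ) + 1)).toNat) = _ from ?_) ▸ h1
    funext w
    by_cases h2 : w 0 < N fun i => w i.succ
    · rw [if_pos h2, if_pos h2]
    · rw [if_neg h2, if_neg h2]
      by_cases h3 : w 0 = N (fun i => w i.succ) + 1
      · rw [if_pos h3, decide_eq_true h3]
        rfl
      · rw [if_neg h3, decide_eq_false h3]
        rfl
  have haN' : ∀ v l i, i < N v + 2 → a' l i v < N v + 2 := by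
    intro v l i _
    rw [ha', hp', hec, hed]
    dsimp only
    split_ifs with h1 h2 h3 h4
    · generalize π ⟨c i v, h2⟩ l = p
      rcases p with q | b
      · exact (haN v _ i h1).trans (by omega)
      · have := Bool.toNat_lt b
        show N v + b.toNat < N v + 2
        omega
    · exact (haN v _ i h1).trans (by omega)
    · have := Bool.toNat_lt (e₀ ⟨l, h4⟩)
      omega
    · omega
    · have := Bool.toNat_lt (e₁ ⟨l, by assumption⟩)
      omega
    · omega
  have hW := H n (fun v => N v + 2) (fun v => B v * 4) x' t c' a' hN' hB' hxD ht hcD haD hNB' haN'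
    (fun v => by rw [hx']; exact code_lt _ _)
  refine low_def hN hB hNB hW (fun v => iter_ix_lt _ _ _ _ (hxN v) _) fun v => ?_
  -- the invariant
  have hinv : ∀ t, (∀ i < N v, ((ix F₀ (N v + 2) (fun i => c' i v) (fun l i => a' l i v))^[t]
      (x' v)).testBit i = ((ix G (N v) (fun i => c i v) (fun l i => a l i v))^[t] (x v)).testBit i) ∧
      ((ix F₀ (N v + 2) (fun i => c' i v) (fun l i => a' l i v))^[t] (x' v)).testBit (N v) = false ∧
      ((ix F₀ (N v + 2) (fun i => c' i v) (fun l i => a' l i v))^[t] (x' v)).testBit (N v + 1) =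
        true := by
    intro t
    induction t with
    | zero =>
      rw [hx']
      refine ⟨fun i hi => ?_, ?_, ?_⟩
      · show (code _ _).testBit i = (x v).testBit i
        rw [testBit_code (by omega), if_pos hi]
      · show (code _ _).testBit (N v) = false
        rw [testBit_code (by omega), if_neg (by omega)]
        exact decide_eq_false (by omega)
      · show (code _ _).testBit (N v + 1) = true
        rw [testBit_code (by omega), if_neg (by omega)]
        exact decide_eq_true rfl
    | succ t ih =>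
      rw [Function.iterate_succ_apply', Function.iterate_succ_apply']
      generalize (ix F₀ (N v + 2) (fun i => c' i v) (fun l i => a' l i v))^[t] (x' v) = z' at ih ⊢
      generalize (ix G (N v) (fun i => c i v) (fun l i => a l i v))^[t] (x v) = z at ih ⊢
      obtain ⟨h1, h2, h3⟩ := ih
      refine ⟨fun i hi => ?_, ?_, ?_⟩
      · rw [testBit_ix _ _ _ _ (by omega), testBit_ix _ _ _ _ hi]
        by_cases hs : c i v < r'
        · have hcv : c' i v = J ⟨c i v, hs⟩ := by
            rw [hc', hJ']
            dsimp only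
            rw [if_pos hi, if_pos hs, dif_pos hs]
          have hav : ∀ l, a' l i v = plc (N v) (fun q => a q i v) (π ⟨c i v, hs⟩ l) := by
            intro l
            rw [ha', hp']
            dsimp only
            rw [if_pos hi, if_pos hs, dif_pos hs]
          have hg := hJ ⟨c i v, hs⟩
          unfold At at hg
          rw [dif_pos hs, hg]
          simp only [hcv, hav]
          have hpl : ∀ l, z'.testBit (plc (N v) (fun q => a q i v) (π ⟨c i v, hs⟩ l)) =
              atom (π ⟨c i v, hs⟩ l) (fun q : Fin K => z.testBit (a q i v)) := fun l =>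
            testBit_plc (fun l => haN v l i hi) h1 h2 h3 _
          by_cases hj : J ⟨c i v, hs⟩ < r
          · rw [dif_pos hj, dif_pos hj]
            simp only [hpl]
          · rw [dif_neg hj, dif_neg hj, hpl]
        · have hcv : c' i v = r := by
            rw [hc']
            dsimp only
            rw [if_pos hi, if_neg hs]
          have hav : a' 0 i v = a 0 i v := by
            rw [ha']
            dsimp only
            rw [if_pos hi, if_neg hs]
          rw [dif_neg hs, hcv, dif_neg (lt_irrefl _), hav]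
          exact h1 _ (haN v 0 i hi)
      · rw [testBit_ix _ _ _ _ (by omega)]
        have hcv : c' (N v) v = j₀ := by
          rw [hc']
          dsimp only
          rw [if_neg (lt_irrefl _)]
        rw [hcv, dif_pos j₀.2, ← he₀]
        congr 1
        funext l
        have hav : a' l (N v) v = N v + (e₀ l).toNat := by
          rw [ha', hec]
          dsimp only
          rw [if_neg (lt_irrefl _), if_pos rfl, dif_pos l.2]
        rw [hav]
        cases e₀ l
        · exact h2
        · exact h3
      · rw [testBit_ix _ _ _ _ (by omega)]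
        have hcv : c' (N v + 1) v = j₀ := by
          rw [hc']
          dsimp only
          rw [if_neg (by omega)]
        rw [hcv, dif_pos j₀.2, ← he₁]
        congr 1
        funext l
        have hav : a' l (N v + 1) v = N v + (e₁ l).toNat := by
          rw [ha', hed]
          dsimp only
          rw [if_neg (by omega), if_neg (by omega), dif_pos l.2]
        rw [hav]
        cases e₁ l
        · exact h2
        · exact h3
  exact (hinv (t v)).1

/-! ### Compositions -/

/-- functions of depth at most `d` -/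
def Cd {k : ℕ} (F : Set (BF k)) (K : ℕ) : ℕ → Set (BF K)
  | 0 => Set.range atom
  | d + 1 => Cd F K d ∪ {g | ∃ f ∈ F, ∃ h : Fin k → BF K, (∀ l, h l ∈ Cd F K d) ∧
      g = fun x => f fun l => h l x}

theorem cd_mono {k : ℕ} {F : Set (BF k)} {K d d' : ℕ} (h : d ≤ d') : Cd F K d ⊆ Cd F K d' := by
  induction d', h using Nat.le_induction with
  | base => exact fun _ h => h
  | succ d' _ ih => exact fun g hg => Or.inl (ih hg)

theorem cd_of_cl {k : ℕ} {F : Set (BF k)} {K : ℕ} {g : BF K} (h : Cl F K g) :
    ∃ d, g ∈ Cd F K d := by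
  induction h with
  | var i => exact ⟨0, .inl i, rfl⟩
  | const b => exact ⟨0, .inr b, rfl⟩
  | @comp f hf h _ ih =>
    choose d hd using ih
    refine ⟨(∑ l, d l) + 1, Or.inr ⟨f, hf, h, fun l => ?_, rfl⟩⟩
    exact cd_mono (single_le_sum (f := d) (fun _ _ => Nat.zero_le _) (mem_univ l)) (hd l)

theorem cd_subst {k : ℕ} {F : Set (BF k)} {K K' d : ℕ} (σ : Fin K → Fin K') {g : BF K}
    (h : g ∈ Cd F K d) : (fun x => g fun i => x (σ i)) ∈ Cd F K' d := by
  induction d generalizing g with
  | zero =>
    obtain ⟨p, rfl⟩ := h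
    rcases p with q | b
    · exact ⟨.inl (σ q), rfl⟩
    · exact ⟨.inr b, rfl⟩
  | succ d ih =>
    rcases h with h | ⟨f, hf, h, hh, rfl⟩
    · exact Or.inl (ih h)
    · exact Or.inr ⟨f, hf, fun l x => h l fun i => x (σ i), fun l => ih (hh l), rfl⟩

theorem sim_step {k r d : ℕ} {F₀ : Fin r → BF k}
    (P : ∀ (K r' : ℕ) (G : Fin r' → BF K), (∀ s, G s ∈ Cd (Set.range F₀) K (d + 1)) → IxIter G)
    {K r' : ℕ} (G : Fin r' → BF K) (hG : ∀ s, G s ∈ Cd (Set.range F₀) K (d + 2)) :
    IxIter G := by
  -- data
  have hdat : ∀ s, ∃ (U : ℕ) (g : ℕ → BF K), (∀ l, g l ∈ Cd (Set.range F₀) K (d + 1)) ∧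
      G s = if h : U < r then fun x => F₀ ⟨U, h⟩ (fun l => g l x) else g 0 := by
    intro s
    rcases hG s with h | ⟨f, ⟨j, rfl⟩, h, hh, h1⟩
    · exact ⟨r, fun _ => G s, fun _ => h, by rw [dif_neg (lt_irrefl _)]⟩
    · refine ⟨j, fun l => if hl : l < k then h ⟨l, hl⟩ else fun _ => false, fun l => ?_, ?_⟩
      · dsimp only
        split_ifs
        · exact hh _
        · exact cd_mono (Nat.zero_le _) ⟨.inr false, rfl⟩
      · rw [dif_pos j.2, h1]
        funext x
        congr 1
        funext l
        show h l x = (if hl : (l : ℕ) < k then h ⟨l, hl⟩ else fun _ => false) x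
        rw [dif_pos l.2]
  choose U g hg hGs using hdat
  intro n N B x t c a hN hB hx ht hc ha hNB haN hxN
  have hr0 : r' * (k + 1) + r < r' * (k + 1) + r + 1 := Nat.lt_succ_self _
  -- the family
  obtain ⟨G', hG'⟩ : ∃ G' : Fin (r' * (k + 1) + r) → BF (K + k), G' =
      fun (e : Fin (r' * (k + 1) + r)) => if h : (e : ℕ) < r' * (k + 1) then
        (fun x : Fin (K + k) → Bool => g ⟨(e : ℕ) / (k + 1),
          (Nat.div_lt_iff_lt_mul (Nat.succ_pos k)).2 h⟩ ((e : ℕ) % (k + 1))
            fun q => x (Fin.castAdd k q))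
      else (fun x : Fin (K + k) → Bool => F₀ ⟨(e : ℕ) - r' * (k + 1), by omega⟩
        fun l => x (Fin.natAdd K l)) := ⟨_, rfl⟩
  have hG'd : ∀ e, G' e ∈ Cd (Set.range F₀) (K + k) (d + 1) := by
    intro e
    rw [hG']
    dsimp only
    split_ifs with h
    · exact cd_subst (Fin.castAdd k) (hg _ _)
    · refine cd_mono (show 1 ≤ d + 1 by omega) (Or.inr ⟨_, ⟨_, rfl⟩,
        fun l x => x (Fin.natAdd K l), fun l => ⟨.inl (Fin.natAdd K l), rfl⟩, rfl⟩)
  obtain ⟨U', hU'⟩ : ∃ U' : ℕ → ℕ, U' = fun s => if h : s < r' then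
    (if U ⟨s, h⟩ < r then r' * (k + 1) + U ⟨s, h⟩ else r' * (k + 1) + r)
      else r' * (k + 1) + r := ⟨_, rfl⟩
  obtain ⟨c', hc'⟩ : ∃ c' : ℕ → (Fin n → ℕ) → ℕ, c' = fun i v =>
    if i < N v then (if c i v < r' then U' (c i v) else r' * (k + 1) + r) else
      if c ((i - N v) / (k + 1)) v < r' then
        c ((i - N v) / (k + 1)) v * (k + 1) + (i - N v) % (k + 1) else r' * (k + 1) + r :=
    ⟨_, rfl⟩
  obtain ⟨a', ha'⟩ : ∃ a' : ℕ → ℕ → (Fin n → ℕ) → ℕ, a' = fun q i v =>
    if i < N v then N v + i * (k + 1) + (if K ≤ q ∧ q < K + k then q - K else 0) else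
      a q ((i - N v) / (k + 1)) v := ⟨_, rfl⟩
  have hN' : DFun n (fun v => N v + N v * (k + 1)) := hN.add (hN.mul (DFun.const _))
  have hB' : DFun n (fun v => B v * B v ^ (k + 1)) := hB.mul (DFun.powConst hB _)
  have hNB' : ∀ v, 2 ^ (N v + N v * (k + 1)) ≤ B v * B v ^ (k + 1) := fun v => by
    rw [pow_add, pow_mul]
    exact Nat.mul_le_mul (hNB v) (Nat.pow_le_pow_left (hNB v) _)
  have hi : DFun (n + 1) (fun w => w 0) := DFun.proj 0
  have hlt : Delta0 (n + 1) (fun w => w 0 < N fun i => w i.succ) := Delta0.ltFun hi hN.weak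
  have hq : DFun (n + 1) (fun w => (w 0 - N fun i => w i.succ) / (k + 1)) :=
    DFun.divPos (hi.sub hN.weak) (DFun.const _) fun _ => Nat.succ_pos k
  have hqm : DFun (n + 1) (fun w => (w 0 - N fun i => w i.succ) % (k + 1)) :=
    DFun.modPos (hi.sub hN.weak) (DFun.const _) fun _ => Nat.succ_pos k
  have hcq : DFun (n + 1) (fun w => c ((w 0 - N fun i => w i.succ) / (k + 1))
      fun i => w i.succ) := DFun.app hc hq fun i => DFun.proj i.succ
  have hcD : DFun (n + 1) (fun w => c' (w 0) fun i => w i.succ) := by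
    rw [hc']
    exact DFun.ite hlt (dfun_case r' (f := fun s _ => U' s) hc (fun s => DFun.const _)
      (DFun.const _)) (DFun.ite (Delta0.ltFun hcq (DFun.const r'))
        ((hcq.mul (DFun.const _)).add hqm) (DFun.const _))
  have haD : ∀ l, DFun (n + 1) (fun w => a' l (w 0) fun i => w i.succ) := by
    intro l
    rw [ha']
    exact DFun.ite hlt ((hN.weak.add (hi.mul (DFun.const _))).add (DFun.const _))
      (DFun.app (ha l) hq fun i => DFun.proj i.succ)
  have hcell : ∀ {N i l : ℕ}, i < N → l < k + 1 → N + i * (k + 1) + l < N + N * (k + 1) := by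
    intro N i l hi hl
    have h1 : (i + 1) * (k + 1) ≤ N * (k + 1) := Nat.mul_le_mul_right _ hi
    rw [Nat.succ_mul] at h1
    omega
  have hbk : ∀ {N i : ℕ}, i < N + N * (k + 1) → (i - N) / (k + 1) < N ∨ i < N := by
    intro N i hi
    by_cases h : i < N
    · exact Or.inr h
    · exact Or.inl ((Nat.div_lt_iff_lt_mul (Nat.succ_pos k)).2
        (show i - N < N * (k + 1) by omega))
  have haN' : ∀ v l i, i < N v + N v * (k + 1) → a' l i v < N v + N v * (k + 1) := by
    intro v l i hi
    rw [ha']
    dsimp only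
    by_cases h1 : i < N v
    · rw [if_pos h1]
      refine hcell h1 ?_
      split_ifs
      · omega
      · omega
    · rw [if_neg h1]
      rcases hbk hi with h2 | h2
      · exact (haN v l _ h2).trans_le (Nat.le_add_right _ _)
      · exact absurd h2 h1
  have hW := P (K + k) _ G' hG'd n (fun v => N v + N v * (k + 1)) (fun v => B v * B v ^ (k + 1)) x
    (fun v => 2 * t v) c' a' hN' hB' hx ((DFun.const 2).mul ht) hcD haD hNB' haN'
    (fun v => (hxN v).trans_le (Nat.pow_le_pow_right two_pos (Nat.le_add_right _ _)))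
  refine low_def hN hB hNB hW (fun v => iter_ix_lt _ _ _ _ (hxN v) _) fun v => ?_
  -- two steps
  have htwo : ∀ z z', (∀ i < N v, z'.testBit i = z.testBit i) → ∀ i < N v,
      (ix G' (N v + N v * (k + 1)) (fun i => c' i v) (fun l i => a' l i v)
        (ix G' (N v + N v * (k + 1)) (fun i => c' i v) (fun l i => a' l i v) z')).testBit i =
      (ix G (N v) (fun i => c i v) (fun l i => a l i v) z).testBit i := by
    intro z z' hz i hi
    obtain ⟨w, hw⟩ : ∃ w, w = ix G' (N v + N v * (k + 1)) (fun i => c' i v)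
      (fun l i => a' l i v) z' := ⟨_, rfl⟩
    have hw1 : ∀ l < k + 1, w.testBit (N v + i * (k + 1) + l) = if h : c i v < r' then
        g ⟨c i v, h⟩ l (fun q => z.testBit (a q i v)) else z.testBit (a 0 i v) := by
      intro l hl
      have h1 : ¬ N v + i * (k + 1) + l < N v := by omega
      have h2 : (N v + i * (k + 1) + l - N v) / (k + 1) = i := by
        rw [show N v + i * (k + 1) + l - N v = l + (k + 1) * i by
          rw [mul_comm (k + 1) i]; omega, Nat.add_mul_div_left _ _ (Nat.succ_pos k),
          Nat.div_eq_of_lt hl, zero_add]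
      have h3 : (N v + i * (k + 1) + l - N v) % (k + 1) = l := by
        rw [show N v + i * (k + 1) + l - N v = l + (k + 1) * i by
          rw [mul_comm (k + 1) i]; omega, Nat.add_mul_mod_self_left, Nat.mod_eq_of_lt hl]
      rw [hw, testBit_ix _ _ _ _ (hcell hi hl)]
      have hav : ∀ q, a' q (N v + i * (k + 1) + l) v = a q i v := by
        intro q
        rw [ha']
        dsimp only
        rw [if_neg h1, h2]
      by_cases hs : c i v < r'
      · have hcv : c' (N v + i * (k + 1) + l) v = c i v * (k + 1) + l := by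
          rw [hc']
          dsimp only
          rw [if_neg h1, h2, h3, if_pos hs]
        have hlt2 : c i v * (k + 1) + l < r' * (k + 1) := by
          have h4 : (c i v + 1) * (k + 1) ≤ r' * (k + 1) := Nat.mul_le_mul_right _ hs
          rw [Nat.succ_mul] at h4
          omega
        rw [dif_pos hs]
        simp only [hcv, hav]
        rw [dif_pos (by omega), hG']
        dsimp only
        rw [dif_pos hlt2]
        have h5 : (c i v * (k + 1) + l) / (k + 1) = c i v := by
          rw [mul_comm, Nat.add_comm, Nat.add_mul_div_left _ _ (Nat.succ_pos k),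
            Nat.div_eq_of_lt hl, zero_add]
        have h6 : (c i v * (k + 1) + l) % (k + 1) = l := by
          rw [mul_comm, Nat.add_comm, Nat.add_mul_mod_self_left, Nat.mod_eq_of_lt hl]
        simp only [h5, h6]
        congr 1
        funext q
        exact hz _ (haN v _ i hi)
      · have hcv : c' (N v + i * (k + 1) + l) v = r' * (k + 1) + r := by
          rw [hc']
          dsimp only
          rw [if_neg h1, h2, if_neg hs]
        rw [dif_neg hs]
        simp only [hcv, hav]
        rw [dif_neg (lt_irrefl _)]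
        exact hz _ (haN v 0 i hi)
    rw [← hw, testBit_ix _ _ _ _ (hi.trans_le (Nat.le_add_right _ _)), testBit_ix _ _ _ _ hi]
    have hav : ∀ l < k, a' (K + l) i v = N v + i * (k + 1) + l := by
      intro l hl
      rw [ha']
      dsimp only
      rw [if_pos hi, if_pos (by omega), Nat.add_sub_cancel_left]
    have hav0 : a' 0 i v = N v + i * (k + 1) + 0 := by
      rw [ha']
      dsimp only
      rw [if_pos hi]
      congr 1
      split_ifs
      · omega
      · rfl
    by_cases hs : c i v < r'
    · rw [dif_pos hs, hGs]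
      by_cases hU : U ⟨c i v, hs⟩ < r
      · have hcv : c' i v = r' * (k + 1) + U ⟨c i v, hs⟩ := by
          rw [hc', hU']
          dsimp only
          rw [if_pos hi, if_pos hs, dif_pos hs, if_pos hU]
        rw [dif_pos hU]
        simp only [hcv]
        rw [dif_pos (by omega), hG']
        dsimp only
        rw [dif_neg (by omega)]
        simp only [Nat.add_sub_cancel_left]
        congr 1
        funext l
        show w.testBit (a' (K + (l : ℕ)) i v) = _
        rw [hav l l.2, hw1 l (by omega), dif_pos hs]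
      · have hcv : c' i v = r' * (k + 1) + r := by
          rw [hc', hU']
          dsimp only
          rw [if_pos hi, if_pos hs, dif_pos hs, if_neg hU]
        rw [dif_neg hU, hcv, dif_neg (lt_irrefl _), hav0, hw1 0 (Nat.succ_pos k), dif_pos hs]
    · have hcv : c' i v = r' * (k + 1) + r := by
        rw [hc']
        dsimp only
        rw [if_pos hi, if_neg hs]
      rw [dif_neg hs, hcv, dif_neg (lt_irrefl _), hav0, hw1 0 (Nat.succ_pos k), dif_neg hs]
  have hinv : ∀ t, ∀ i < N v, ((ix G' (N v + N v * (k + 1)) (fun i => c' i v)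
      (fun l i => a' l i v))^[2 * t] (x v)).testBit i =
      ((ix G (N v) (fun i => c i v) (fun l i => a l i v))^[t] (x v)).testBit i := by
    intro t
    induction t with
    | zero => exact fun i _ => rfl
    | succ t ih =>
      rw [show 2 * (t + 1) = 2 * t + 1 + 1 by ring, Function.iterate_succ_apply',
        Function.iterate_succ_apply', Function.iterate_succ_apply']
      exact htwo _ _ ih
  exact hinv (t v)

theorem sim {k r : ℕ} {F₀ : Fin r → BF k} (hnc : ∃ j x y, F₀ j x ≠ F₀ j y) (H : IxIter F₀)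
    {K r' : ℕ} (G : Fin r' → BF K) (hG : ∀ s, Cl (Set.range F₀) K (G s)) : IxIter G := by
  have key : ∀ d, ∀ (K r' : ℕ) (G : Fin r' → BF K),
      (∀ s, G s ∈ Cd (Set.range F₀) K (d + 1)) → IxIter G := by
    intro d
    induction d with
    | zero =>
      intro K r' G hG
      refine sim_one hnc H G fun s => ?_
      rcases hG s with ⟨p, hp⟩ | ⟨f, ⟨j, rfl⟩, h, hh, h1⟩
      · exact ⟨r, fun _ => p, by rw [At, dif_neg (lt_irrefl _)]; exact hp.symm⟩
      · choose p hp using hh
        refine ⟨j, fun l => if hl : l < k then p ⟨l, hl⟩ else .inr false, ?_⟩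
        rw [At, dif_pos j.2, h1]
        funext x
        congr 1
        funext l
        rw [dif_pos l.2]
        exact (congrFun (hp l) x).symm
    | succ d ih => exact fun K r' G hG => sim_step ih G hG
  choose d hd using fun s => cd_of_cl (hG s)
  exact key (∑ s, d s) K r' G fun s => cd_mono
    ((single_le_sum (f := d) (fun _ _ => Nat.zero_le _) (mem_univ s)).trans (Nat.le_succ _)) (hd s)

theorem ix_of_iter {k r : ℕ} {F : Set (BF k)} (H : IterF F) {F₀ : Fin r → BF k}
    (hF : ∀ j, F₀ j ∈ F) : IxIter F₀ := by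
  intro n N B x t c a hN hB hx ht hc ha hNB haN hxN
  refine H n N B x t (fun z v => ix F₀ (N v) (fun i => c i v) (fun l i => a l i v) z) hN hB hx ht
    ?_ hNB (fun v z _ => ix_lt _ _ _ _ _) (fun v i hi => ?_) hxN
  · refine code_def (N := fun w => N fun i => w i.succ) (B := fun w => B fun i => w i.succ)
      (f := fun i w => if h : c i (fun i => w i.succ) < r then
        F₀ ⟨c i fun i => w i.succ, h⟩ (fun l => (w 0).testBit (a l i fun i => w i.succ)) else
          (w 0).testBit (a 0 i fun i => w i.succ)) hN.weak hB.weak (fun w => hNB _) ?_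
    -- the variables are `i, z, v`
    have hc2 : DFun (n + 1 + 1) (fun w => c (w 0) fun i => w i.succ.succ) :=
      DFun.app hc (DFun.proj 0) fun i => DFun.proj i.succ.succ
    have ha2 : ∀ l, DFun (n + 1 + 1) (fun w => a l (w 0) fun i => w i.succ.succ) := fun l =>
      DFun.app (ha l) (DFun.proj 0) fun i => DFun.proj i.succ.succ
    have hb2 : ∀ l, DFun (n + 1 + 1) (fun w => ((w (Fin.succ 0)).testBit
        (a l (w 0) fun i => w i.succ.succ)).toNat) := fun l =>
      testBit_def (DFun.proj (Fin.succ 0)) (ha2 l)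
    have h1 := dfun_case r (f := fun s w => if h : s < r then
      (F₀ ⟨s, h⟩ fun l => (w (Fin.succ 0)).testBit (a l (w 0) fun i => w i.succ.succ)).toNat
        else 0) hc2 (fun s => by
          by_cases hs : s < r
          · simp only [dif_pos hs]
            exact bf_def _ fun l => hb2 l
          · simp only [dif_neg hs]
            exact DFun.const 0) (hb2 0)
    refine (show (fun w : Fin (n + 1 + 1) → ℕ => (if h : c (w 0) (fun i => w i.succ.succ) < r then
        F₀ ⟨c (w 0) fun i => w i.succ.succ, h⟩ (fun l => (w (Fin.succ 0)).testBit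
          (a l (w 0) fun i => w i.succ.succ)) else
            (w (Fin.succ 0)).testBit (a 0 (w 0) fun i => w i.succ.succ)).toNat) = _ from ?_) ▸ h1
    funext w
    by_cases h : c (w 0) (fun i => w i.succ.succ) < r
    · rw [dif_pos h, if_pos h, dif_pos h]
    · rw [dif_neg h, if_neg h]
  · by_cases h : c i v < r
    · refine Or.inr ⟨F₀ ⟨c i v, h⟩, hF _, fun l => a l i v, fun l => haN v l i hi, fun z _ => ?_⟩
      rw [testBit_ix _ _ _ _ hi, dif_pos h]
    · refine Or.inl ⟨a 0 i v, haN v 0 i hi, fun z _ => ?_⟩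
      rw [testBit_ix _ _ _ _ hi, dif_neg h]

end Pool.Agent.H63PL
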