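import Pool.Agent.H63PL.Pos
import Pool.Agent.H63PL.Base
import Pool.Agent.H63PL.Sim
import Pool.Agent.H63PL.Dual
import Pool.Agent.H63PL.Bool

/-!
# The dichotomy for Boolean rules
-/

set_option autoImplicit false

namespace Pool.Agent.H63PL

open Finset Pool.Agent.Grz Pool.Agent.GAvg Pool.Agent.PTr Pool.Agent.LinU

theorem all_of_nand (H : IxIter (fun _ : Fin 1 => nand2)) {K r : ℕ} (G : Fin r → BF K) :
    IxIter G := by
  refine sim ⟨0, fun _ => true, fun _ => false, by decide⟩ H G fun s => ?_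
  have h := cl_nand (G s)
  rwa [show Set.range (fun _ : Fin 1 => nand2) = {nand2} from by simp] 

/-- **Hardness.** -/
theorem eq_of_iterF {k : ℕ} {F : Set (BF k)} (h : ¬ (Affine F ∨ Disj F ∨ Conj F))
    (H : IterF F) : ∀ (n : ℕ) (R : (Fin n → ℕ) → Prop), Delta0 n R ↔ E2Star n R := by
  obtain ⟨r, F₀, hF₀⟩ : ∃ (r : ℕ) (F₀ : Fin r → BF k), Set.range F₀ = F := by
    obtain ⟨r, e, -, he⟩ := (Set.toFinite F).fin_param
    exact ⟨r, e, he⟩
  have hix : IxIter F₀ := ix_of_iter H fun j => by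
    rw [← hF₀]
    exact Set.mem_range_self j
  have hnc : ∃ j x y, F₀ j x ≠ F₀ j y := by
    obtain ⟨f, hf, x, y, hxy⟩ := exists_nc h
    rw [← hF₀] at hf
    obtain ⟨j, rfl⟩ := hf
    exact ⟨j, x, y, hxy⟩
  refine base fun K r' G => all_of_nand ?_ G
  have hg := cl_gates h
  rw [← hF₀] at hg
  rcases hg with hg | ⟨ha, ho⟩
  · exact sim hnc hix _ fun _ => hg
  · refine dual (sim hnc hix _ fun s => ?_)
    match s with
    | 0 => exact ha
    | 1 => exact ho

/-- **The dichotomy for Boolean rules.** -/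
theorem post {k : ℕ} (F : Set (BF k)) :
    (Affine F ∨ Disj F ∨ Conj F → IterF F) ∧ (¬ (Affine F ∨ Disj F ∨ Conj F) →
      ((∀ (n : ℕ) (R : (Fin n → ℕ) → Prop), Delta0 n R ↔ E2Star n R) ↔ IterF F)) :=
  ⟨iterF_of, fun h => ⟨iterF_of_eq F, eq_of_iterF h⟩⟩

end Pool.Agent.H63PL
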