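import Pool.Agent.H63PL.Walk
import Pool.Agent.H63WB.Path
import Pool.Agent.H63LB.Core

/-!
# Walks are definable
-/

set_option autoImplicit false

namespace Pool.Agent.H63PL

open Finset Pool.Agent.Grz Pool.Agent.GAvg Pool.Agent.PTr Pool.Agent.MTr Pool.Agent.LPC
open Pool.Agent.ECD Pool.Agent.LinU

/-- the steps of a walk from `i` to `j` -/
private def St (S : ℕ) (E : ℕ → ℕ → Prop) (i j t l a b : ℕ) : Prop :=
  (l = 0 → a = i) ∧ (l + 1 = t → b = j) ∧ a < S ∧ b < S ∧ E a b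

private theorem walk_iff_path {E : ℕ → ℕ → Prop} {S i j t : ℕ} :
    Walk E S i j t ↔ (t = 0 ∧ i = j ∧ i < S) ∨ (0 < t ∧ ∃ s : ℕ → ℕ, (∀ l, s l < S + 2) ∧
      ∀ l, l < t → St S E i j t l (s l) (s (l + 1))) := by
  constructor
  · rintro ⟨s, hs, h0, ht, hE⟩
    rcases Nat.eq_zero_or_pos t with h | h
    · subst h
      exact Or.inl ⟨rfl, by rw [← h0, ← ht], by rw [← h0]; exact hs 0⟩
    · refine Or.inr ⟨h, s, fun l => (hs l).trans (by omega), fun l hl => ⟨?_, ?_, hs l, hs _, hE l hl⟩⟩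
      · rintro rfl
        exact h0
      · intro h1
        rw [h1]
        exact ht
  · rintro (⟨rfl, rfl, hi⟩ | ⟨ht, s, _, hE⟩)
    · exact ⟨fun _ => i, fun _ => hi, rfl, rfl, fun l hl => absurd hl (Nat.not_lt_zero l)⟩
    · refine ⟨fun l => if l ≤ t then s l else i, fun l => ?_, ?_, ?_, fun l hl => ?_⟩
      · dsimp only
        have hi : i < S := by
          have h1 := hE 0 ht
          rw [← h1.1 rfl]
          exact h1.2.2.1
        split_ifs with h
        · rcases Nat.lt_or_ge l t with h2 | h2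
          · exact (hE l h2).2.2.1
          · have h3 : l = (t - 1) + 1 := by omega
            rw [h3]
            exact (hE (t - 1) (by omega)).2.2.2.1
        · exact hi
      · dsimp only
        rw [if_pos (Nat.zero_le t)]
        exact (hE 0 ht).1 rfl
      · dsimp only
        rw [if_pos le_rfl]
        have h3 := (hE (t - 1) (by omega)).2.1 (by omega)
        rwa [show t - 1 + 1 = t by omega] at h3
      · dsimp only
        rw [if_pos hl.le, if_pos (Nat.succ_le_of_lt hl)]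
        exact (hE l hl).2.2.2.2

private theorem sq_pow (S : ℕ) : (S + 2) ^ (Nat.sqrt S + 2 + 1) ≤ (2 ^ S) ^ 10 * 64 := by
  obtain ⟨c, hc⟩ : ∃ c, Nat.sqrt S = c := ⟨_, rfl⟩
  have h1 : S < (c + 1) * (c + 1) := by
    rw [← hc]
    exact Nat.lt_succ_sqrt S
  have h2 : c * c ≤ S := by
    rw [← hc]
    exact Nat.sqrt_le S
  have h3 : c ≤ S := by
    rw [← hc]
    exact Nat.sqrt_le_self S
  rw [hc]
  have h4 : S + 2 ≤ (2 ^ (c + 1)) ^ 2 := by
    have h5 : c + 2 ≤ 2 ^ (c + 1) := by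
      have := Nat.lt_two_pow_self (n := c + 1)
      omega
    calc S + 2 ≤ (c + 2) ^ 2 := by nlinarith
      _ ≤ _ := Nat.pow_le_pow_left h5 2
  calc (S + 2) ^ (c + 2 + 1) ≤ ((2 ^ (c + 1)) ^ 2) ^ (c + 2 + 1) := Nat.pow_le_pow_left h4 _
    _ = 2 ^ ((c + 1) * 2 * (c + 2 + 1)) := by
        rw [← pow_mul, ← pow_mul]
        ring_nf
    _ ≤ 2 ^ (S * 10 + 6) := Nat.pow_le_pow_right (by norm_num) (by nlinarith)
    _ = (2 ^ S) ^ 10 * 64 := by
        rw [pow_add, pow_mul]
        norm_num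

private theorem sq_four (S : ℕ) : S * S ≤ (Nat.sqrt S + 2) ^ 4 := by
  obtain ⟨c, hc⟩ : ∃ c, Nat.sqrt S = c := ⟨_, rfl⟩
  have h1 : S < (c + 1) * (c + 1) := by
    rw [← hc]
    exact Nat.lt_succ_sqrt S
  rw [hc]
  have h2 : S ≤ (c + 2) ^ 2 := by nlinarith
  calc S * S ≤ (c + 2) ^ 2 * (c + 2) ^ 2 := Nat.mul_le_mul h2 h2
    _ = (c + 2) ^ 4 := by ring

section

variable {n : ℕ} {S B : (Fin n → ℕ) → ℕ} {E : ℕ → ℕ → (Fin n → ℕ) → Prop}

/-- walks of length at most `S ^ 2`, closed under substitution -/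
private theorem walk_short (hS : DFun n S) (hB : DFun n B) (hSB : ∀ v, 2 ^ S v ≤ B v)
    (hE : Delta0 (n + 2) (fun w => E (w 0) (w 1) fun l => w l.succ.succ))
    {i j t : (Fin n → ℕ) → ℕ} (hi : DFun n i) (hj : DFun n j) (ht : DFun n t)
    (htS : ∀ v, t v ≤ S v * S v) :
    Delta0 n (fun v => Walk (fun a b => E a b v) (S v) (i v) (j v) (t v)) := by
  have hK : DFun n (fun v => Nat.sqrt (S v) + 2) := (H63LB.Cor.sqrt_def hS).add (DFun.const 2)
  have hB' : DFun n (fun v => B v ^ 10 * 64) := (DFun.powConst hB 10).mul (DFun.const 64)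
  have hP := H63WB.path_delta 4 (S := fun v => S v + 2) (K := fun v => Nat.sqrt (S v) + 2)
    (L := t) (B := fun v => B v ^ 10 * 64) (hS.add (DFun.const 2)) hK ht hB' (fun v => by omega)
    (fun v => by omega)
    (fun v => (sq_pow (S v)).trans (Nat.mul_le_mul_right _ (Nat.pow_le_pow_left (hSB v) 10)))
    (fun v => (htS v).trans (sq_four (S v)))
    (E := fun l a b v => St (S v) (fun a b => E a b v) (i v) (j v) (t v) l a b) (by
      intro m l a b v hl ha hb hv
      have hS' : DFun m (fun w => S (fun j => v j w)) := hS.comp hv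
      have hi' : DFun m (fun w => i (fun j => v j w)) := hi.comp hv
      have hj' : DFun m (fun w => j (fun j => v j w)) := hj.comp hv
      have ht' : DFun m (fun w => t (fun j => v j w)) := ht.comp hv
      refine ((Delta0.eqFun hl (DFun.const 0)).imp (Delta0.eqFun ha hi')).and
        (((Delta0.eqFun (hl.add (DFun.const 1)) ht').imp (Delta0.eqFun hb hj')).and
        ((Delta0.ltFun ha hS').and ((Delta0.ltFun hb hS').and ?_)))
      refine Delta0.of_iff (Delta0.subst hE (h := Fin.cons a (Fin.cons b v)) fun x => ?_)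
        fun w => Iff.rfl
      refine Fin.cases ha (fun x => ?_) x
      refine Fin.cases hb (fun x => ?_) x
      exact hv x)
  refine (((Delta0.eqFun ht (DFun.const 0)).and ((Delta0.eqFun hi hj).and
    (Delta0.ltFun hi hS))).or ((Delta0.ltFun (DFun.const 0) ht).and hP)).of_iff fun v => ?_
  exact walk_iff_path

end

/-- walks of any length in a graph with at most `lg B` nodes -/
theorem walk_delta {n : ℕ} {S B i j t : (Fin n → ℕ) → ℕ} {E : ℕ → ℕ → (Fin n → ℕ) → Prop}
    (hS : DFun n S) (hB : DFun n B) (hi : DFun n i) (hj : DFun n j) (ht : DFun n t)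
    (hSB : ∀ v, 2 ^ S v ≤ B v)
    (hE : Delta0 (n + 2) (fun w => E (w 0) (w 1) fun l => w l.succ.succ)) :
    Delta0 n (fun v => Walk (fun a b => E a b v) (S v) (i v) (j v) (t v)) := by
  have hSS : DFun n (fun v => S v * S v) := hS.mul hS
  -- short walks, in `m` further variables
  have hsh : ∀ (m : ℕ) (σ : Fin n → (Fin m → ℕ) → ℕ), (∀ l, DFun m (σ l)) →
      ∀ i j t : (Fin m → ℕ) → ℕ, DFun m i → DFun m j → DFun m t →
      Delta0 m (fun w => t w ≤ S (fun l => σ l w) * S (fun l => σ l w) ∧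
        Walk (fun a b => E a b (fun l => σ l w)) (S fun l => σ l w) (i w) (j w) (t w)) := by
    intro m σ hσ i j t hi hj ht
    have hS' : DFun m (fun w => S (fun l => σ l w)) := hS.comp hσ
    have hB' : DFun m (fun w => B (fun l => σ l w)) := hB.comp hσ
    have hE' : Delta0 (m + 2) (fun w => E (w 0) (w 1) fun l => σ l fun x => w x.succ.succ) := by
      refine Delta0.of_iff (Delta0.subst hE
        (h := Fin.cons (fun w => w 0) (Fin.cons (fun w => w 1)
          fun l w => σ l fun x => w x.succ.succ)) fun x => ?_) fun w => Iff.rfl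
      refine Fin.cases (DFun.proj 0) (fun x => ?_) x
      refine Fin.cases (DFun.proj 1) (fun x => ?_) x
      exact (hσ x).weak.weak
    have h := walk_short (E := fun a b w => E a b fun l => σ l w) hS' hB' (fun w => hSB _) hE'
      hi hj (ht.min (hS'.mul hS')) (fun w => min_le_right _ _)
    refine ((Delta0.leFun ht (hS'.mul hS')).and h).of_iff fun w => ?_
    constructor
    · rintro ⟨h1, h2⟩
      refine ⟨h1, ?_⟩
      rw [min_eq_left h1]
      exact h2
    · rintro ⟨h1, h2⟩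
      rw [min_eq_left h1] at h2
      exact ⟨h1, h2⟩
  -- the long ones
  have hlong : Delta0 n (fun v => ∃ q, q ≤ S v ∧ ∃ b, b ≤ S v ∧ ∃ a₁, a₁ ≤ S v ∧
      ∃ a₂, a₂ ≤ S v * S v ∧ (q < S v ∧ b + 1 ≤ S v ∧ a₁ < S v ∧ a₂ < S v * S v ∧ a₁ + a₂ ≤ t v ∧
        (t v - (a₁ + a₂)) % (b + 1) = 0 ∧
        (a₁ ≤ S v * S v ∧ Walk (fun a b => E a b v) (S v) (i v) q a₁) ∧
        (a₂ ≤ S v * S v ∧ Walk (fun a b => E a b v) (S v) q (j v) a₂) ∧
        (b + 1 ≤ S v * S v ∧ Walk (fun a b => E a b v) (S v) q q (b + 1)))) := by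
    refine Delta0.bexFun hS ?_
    refine Delta0.bexFun hS.weak ?_
    refine Delta0.bexFun hS.weak.weak ?_
    refine Delta0.bexFun (b := fun w : Fin (n + 3) → ℕ => S (fun l => w l.succ.succ.succ) *
      S (fun l => w l.succ.succ.succ)) hSS.weak.weak.weak ?_
    have hS4 : DFun (n + 4) (fun w => S fun l => w l.succ.succ.succ.succ) := hS.weak.weak.weak.weak
    have hi4 : DFun (n + 4) (fun w => i fun l => w l.succ.succ.succ.succ) := hi.weak.weak.weak.weak
    have hj4 : DFun (n + 4) (fun w => j fun l => w l.succ.succ.succ.succ) := hj.weak.weak.weak.weak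
    have ht4 : DFun (n + 4) (fun w => t fun l => w l.succ.succ.succ.succ) := ht.weak.weak.weak.weak
    have q4 : DFun (n + 4) (fun w => w (Fin.succ (Fin.succ (Fin.succ 0)))) := DFun.proj _
    have b4 : DFun (n + 4) (fun w => w (Fin.succ (Fin.succ 0))) := DFun.proj _
    have a4 : DFun (n + 4) (fun w => w (Fin.succ 0)) := DFun.proj _
    have c4 : DFun (n + 4) (fun w => w 0) := DFun.proj _
    have hσ : ∀ l : Fin n, DFun (n + 4) (fun w : Fin (n + 4) → ℕ => w l.succ.succ.succ.succ) :=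
      fun l => DFun.proj _
    exact (Delta0.ltFun q4 hS4).and ((Delta0.leFun (b4.add (DFun.const 1)) hS4).and
      ((Delta0.ltFun a4 hS4).and ((Delta0.ltFun c4 (hS4.mul hS4)).and
      ((Delta0.leFun (a4.add c4) ht4).and
      ((Delta0.eqFun ((ht4.sub (a4.add c4)).mod b4) (DFun.const 0)).and
      ((hsh _ _ hσ _ _ _ hi4 q4 a4).and ((hsh _ _ hσ _ _ _ q4 hj4 c4).and
        (hsh _ _ hσ _ _ _ q4 q4 (b4.add (DFun.const 1))))))))))
  have hshort := hsh n (fun l v => v l) (fun l => DFun.proj l) i j t hi hj ht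
  refine (hshort.or ((Delta0.ltFun hSS ht).and hlong)).of_iff fun v => ?_
  have h10 : S v ≤ S v * S v := Nat.le_mul_self _
  constructor
  · intro h
    by_cases h0 : t v ≤ S v * S v
    · exact Or.inl ⟨h0, h⟩
    · obtain ⟨q, b, a₁, a₂, h1, h2, hb, h3, h4, h5, h6, h7, h8, h9⟩ :=
        (walk_iff (by omega)).1 h
      obtain ⟨b, rfl⟩ : ∃ b', b = b' + 1 := ⟨b - 1, by omega⟩
      exact Or.inr ⟨by omega, q, h1.le, b, by omega, a₁, h3.le, a₂, h4.le, h1, hb, h3, h4, h5,
        Nat.mod_eq_zero_of_dvd h6, ⟨h3.le.trans h10, h7⟩, ⟨h4.le, h8⟩, ⟨hb.trans h10, h9⟩⟩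
  · rintro (⟨_, h⟩ | ⟨h0, q, _, b, _, a₁, _, a₂, _, h1, h2, h3, h4, h5, h6, ⟨_, h7⟩, ⟨_, h8⟩,
      ⟨_, h9⟩⟩)
    · exact h
    · exact (walk_iff (by omega)).2 ⟨q, b + 1, a₁, a₂, h1, by omega, h2, h3, h4, h5,
        Nat.dvd_of_mod_eq_zero h6, h7, h8, h9⟩

end Pool.Agent.H63PL
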