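import Pool.Agent.H63PL.Def
import Pool.Agent.H63PL.WalkD

/-!
# Maps which commute with the disjunction
-/

set_option autoImplicit false

namespace Pool.Agent.H63PL

open Finset Pool.Agent.Grz Pool.Agent.GAvg Pool.Agent.PTr Pool.Agent.LPC Pool.Agent.LinU

/-- the word with only the bit `i`, or `0` for `N ≤ i` -/
def eo (N i : ℕ) : ℕ := code N fun j => decide (j = i)

theorem eo_lt (N i : ℕ) : eo N i < 2 ^ N := code_lt N _

theorem testBit_ge {N z i : ℕ} (hz : z < 2 ^ N) (hi : N ≤ i) : z.testBit i = false :=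
  Nat.testBit_lt_two_pow (lt_of_lt_of_le hz (Nat.pow_le_pow_right (by norm_num) hi))

theorem eo_eq {N i : ℕ} (hi : i < N) : eo N i = 2 ^ i := by
  refine ext_testBit (N := N) (eo_lt N i) (Nat.pow_lt_pow_right (by norm_num) hi) fun j hj => ?_
  unfold eo
  rw [testBit_code hj, Nat.testBit_two_pow]
  by_cases h : j = i
  · simp [h]
  · have h' : ¬ i = j := fun h' => h h'.symm
    simp [h, h']

theorem eo_zero {N i : ℕ} (hi : N ≤ i) : eo N i = 0 := by
  refine ext_testBit (N := N) (eo_lt N i) (Nat.pow_pos (by norm_num)) fun j hj => ?_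
  unfold eo
  rw [testBit_code hj]
  simp only [Nat.zero_testBit, decide_eq_false_iff_not]
  omega

theorem mod_succ_or {z M : ℕ} :
    z % 2 ^ (M + 1) = (z % 2 ^ M) ||| (if z.testBit M = true then 2 ^ M else 0) := by
  refine Nat.eq_of_testBit_eq fun j => ?_
  rw [Nat.testBit_or, Nat.testBit_mod_two_pow, Nat.testBit_mod_two_pow]
  by_cases h : z.testBit M = true
  · rw [if_pos h, Nat.testBit_two_pow]
    by_cases h1 : j < M
    · simp [h1, show j < M + 1 by omega, show ¬ (M = j) by omega]
    · by_cases h2 : j = M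
      · subst h2
        simp [h]
      · simp [h1, show ¬ (j < M + 1) by omega, show ¬ (M = j) by omega]
  · rw [if_neg h]
    simp only [Nat.zero_testBit, Bool.or_false]
    by_cases h1 : j < M
    · simp [h1, show j < M + 1 by omega]
    · by_cases h2 : j = M
      · subst h2
        simp [h]
      · simp [h1, show ¬ (j < M + 1) by omega]

/-- the bits of the values of a map which commutes with the disjunction -/
theorem or_bit {N : ℕ} {T : ℕ → ℕ}
    (hop : ∀ y z, y < 2 ^ N → z < 2 ^ N → T (y ||| z) = T y ||| T z) {z : ℕ} (hz : z < 2 ^ N)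
    (j : ℕ) : (T z).testBit j = true ↔
      ∃ i ≤ N, (i = N ∨ z.testBit i = true) ∧ (T (eo N i)).testBit j = true := by
  have key : ∀ M ≤ N, ((T (z % 2 ^ M)).testBit j = true ↔
      (T 0).testBit j = true ∨ ∃ i < M, z.testBit i = true ∧ (T (eo N i)).testBit j = true) := by
    intro M
    induction M with
    | zero =>
      intro _
      simp [Nat.mod_one]
    | succ M ih =>
      intro hM
      have hlt : z % 2 ^ M < 2 ^ N :=
        lt_of_lt_of_le (Nat.mod_lt _ (by positivity)) (Nat.pow_le_pow_right (by norm_num) (by omega))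
      rw [mod_succ_or]
      by_cases h : z.testBit M = true
      · have he : (2 : ℕ) ^ M = eo N M := (eo_eq (show M < N by omega)).symm
        rw [if_pos h, show T (z % 2 ^ M ||| 2 ^ M) = T (z % 2 ^ M) ||| T (eo N M) by
          rw [← hop _ _ hlt (eo_lt N M), ← he], Nat.testBit_or, Bool.or_eq_true, ih (by omega)]
        constructor
        · rintro ((h1 | ⟨i, hi, h1⟩) | h1)
          · exact Or.inl h1
          · exact Or.inr ⟨i, by omega, h1⟩
          · exact Or.inr ⟨M, by omega, h, h1⟩
        · rintro (h1 | ⟨i, hi, h1, h2⟩)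
          · exact Or.inl (Or.inl h1)
          · by_cases hiM : i = M
            · subst hiM
              exact Or.inr h2
            · exact Or.inl (Or.inr ⟨i, by omega, h1, h2⟩)
      · rw [if_neg h, Nat.or_zero, ih (by omega)]
        refine or_congr_right ?_
        constructor
        · rintro ⟨i, hi, h1⟩
          exact ⟨i, by omega, h1⟩
        · rintro ⟨i, hi, h1, h2⟩
          by_cases hiM : i = M
          · subst hiM
            exact absurd h1 h
          · exact ⟨i, by omega, h1, h2⟩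
  have h := key N le_rfl
  rw [Nat.mod_eq_of_lt hz] at h
  rw [h]
  constructor
  · rintro (h1 | ⟨i, hi, h1, h2⟩)
    · refine ⟨N, le_rfl, Or.inl rfl, ?_⟩
      rw [eo_zero le_rfl]
      exact h1
    · exact ⟨i, hi.le, Or.inr h1, h2⟩
  · rintro ⟨i, hi, h1, h2⟩
    by_cases hiN : i = N
    · rw [hiN, eo_zero le_rfl] at h2
      exact Or.inl h2
    · rcases h1 with h1 | h1
      · exact absurd h1 hiN
      · exact Or.inr ⟨i, by omega, h1, h2⟩

/-- the edges: the node `N` is the constant one -/
def Eo (N : ℕ) (T : ℕ → ℕ) (i j : ℕ) : Prop :=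
  (j < N ∧ (T (eo N i)).testBit j = true) ∨ (i = N ∧ j = N)

theorem walk_zero {E : ℕ → ℕ → Prop} {n i j : ℕ} (hi : i < n) : Walk E n i j 0 ↔ i = j := by
  constructor
  · rintro ⟨s, _, h0, h1, _⟩
    rw [← h0, h1]
  · rintro rfl
    exact ⟨fun _ => i, fun _ => hi, rfl, rfl, fun l hl => absurd hl (by omega)⟩

theorem walk_succ {E : ℕ → ℕ → Prop} {n i j t : ℕ} (hj : j < n) :
    Walk E n i j (t + 1) ↔ ∃ q < n, Walk E n i q t ∧ E q j := by
  constructor
  · rintro ⟨s, hs, h0, h1, h2⟩
    refine ⟨s t, hs t, ⟨s, hs, h0, rfl, fun l hl => h2 l (by omega)⟩, ?_⟩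
    have := h2 t (by omega)
    rwa [h1] at this
  · rintro ⟨q, hq, ⟨s, hs, h0, h1, h2⟩, hE⟩
    refine ⟨fun l => if l ≤ t then s l else j, fun l => ?_, ?_, ?_, fun l hl => ?_⟩
    · dsimp only
      split
      · exact hs l
      · exact hj
    · simp [h0]
    · simp
    · dsimp only
      by_cases h : l = t
      · subst h
        rw [if_pos le_rfl, if_neg (by omega), h1]
        exact hE
      · rw [if_pos (by omega), if_pos (by omega)]
        exact h2 l (by omega)

/-- the bits of the iterates -/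
theorem or_iter_bit {N : ℕ} {T : ℕ → ℕ} (hTb : ∀ z, z < 2 ^ N → T z < 2 ^ N)
    (hop : ∀ y z, y < 2 ^ N → z < 2 ^ N → T (y ||| z) = T y ||| T z) {x : ℕ} (hx : x < 2 ^ N)
    (t : ℕ) : T^[t] x < 2 ^ N ∧ ∀ j < N, ((T^[t] x).testBit j = true ↔
      ∃ i ≤ N, (i = N ∨ x.testBit i = true) ∧ Walk (Eo N T) (N + 1) i j t) := by
  induction t with
  | zero =>
    refine ⟨hx, fun j hj => ?_⟩
    show x.testBit j = true ↔ _
    constructor
    · intro h
      exact ⟨j, hj.le, Or.inr h, (walk_zero (by omega)).2 rfl⟩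
    · rintro ⟨i, hi, h1, h2⟩
      rw [walk_zero (by omega)] at h2
      subst h2
      rcases h1 with h1 | h1
      · omega
      · exact h1
  | succ t ih =>
    obtain ⟨hlt, ih⟩ := ih
    rw [Function.iterate_succ_apply']
    refine ⟨hTb _ hlt, fun j hj => ?_⟩
    rw [or_bit hop hlt j]
    constructor
    · rintro ⟨q, hq, h1, h2⟩
      have hE : Eo N T q j := Or.inl ⟨hj, h2⟩
      by_cases hqN : q = N
      · subst hqN
        exact ⟨q, le_rfl, Or.inl rfl, (walk_succ (by omega)).2 ⟨q, by omega,
          ⟨fun _ => q, fun _ => Nat.lt_succ_self q, rfl, rfl, fun l _ => Or.inr ⟨rfl, rfl⟩⟩, hE⟩⟩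
      · rcases h1 with h1 | h1
        · exact absurd h1 hqN
        · obtain ⟨i, hi, h3, h4⟩ := (ih q (by omega)).1 h1
          exact ⟨i, hi, h3, (walk_succ (by omega)).2 ⟨q, by omega, h4, hE⟩⟩
    · rintro ⟨i, hi, h1, h2⟩
      obtain ⟨q, hq, h3, h4⟩ := (walk_succ (by omega)).1 h2
      rcases h4 with ⟨_, h4⟩ | ⟨_, h4⟩
      · refine ⟨q, by omega, ?_, h4⟩
        by_cases hqN : q = N
        · exact Or.inl hqN
        · exact Or.inr ((ih q (by omega)).2 ⟨i, hi, h1, h3⟩)
      · omega

theorem or_iter' {n : ℕ} {N B x t : (Fin n → ℕ) → ℕ} {T : ℕ → (Fin n → ℕ) → ℕ}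
    (hN : DFun n N) (hB : DFun n B) (hx : DFun n x) (ht : DFun n t)
    (hT : DFun (n + 1) (fun w => T (w 0) fun i => w i.succ)) (hNB : ∀ v, 2 ^ N v ≤ B v)
    (hTb : ∀ v z, z < 2 ^ N v → T z v < 2 ^ N v)
    (hop : ∀ v y z, y < 2 ^ N v → z < 2 ^ N v → T (y ||| z) v = T y v ||| T z v)
    (hxb : ∀ v, x v < 2 ^ N v) : DFun n (fun v => (fun z => T z v)^[t v] (x v)) := by
  classical
  -- the word with one bit
  have heo : DFun (n + 1) (fun w => eo (N fun i => w i.succ) (w 0)) := by
    refine code_def (f := fun j (w : Fin (n + 1) → ℕ) => decide (j = w 0)) hN.weak hB.weak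
      (fun w => hNB _) ?_
    have h : DFun (n + 1 + 1) (fun w => if w 0 = w 1 then 1 else 0) :=
      DFun.ite (Delta0.eqFun (DFun.proj 0) (DFun.proj 1)) (DFun.const 1) (DFun.const 0)
    refine (show (fun w : Fin (n + 1 + 1) → ℕ => (decide (w 0 = w 1)).toNat) = _ from ?_) ▸ h
    funext w
    by_cases hw : w 0 = w 1
    · simp [hw]
    · simp [hw]
  have hTe : DFun (n + 1) (fun w => T (eo (N fun i => w i.succ) (w 0)) fun i => w i.succ) := by
    have h := hT.comp (h := Fin.cons (fun w : Fin (n + 1) → ℕ => eo (N fun i => w i.succ) (w 0))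
      (fun i (w : Fin (n + 1) → ℕ) => w i.succ)) (fun i => by
        refine Fin.cases ?_ (fun i => ?_) i
        · exact heo
        · exact DFun.proj i.succ)
    exact h
  have hE : Delta0 (n + 2) (fun w => Eo (N fun i => w i.succ.succ)
      (fun z => T z fun i => w i.succ.succ) (w 0) (w 1)) := by
    have h1 : DFun (n + 2) (fun w => T (eo (N fun i => w i.succ.succ) (w 0))
        fun i => w i.succ.succ) :=
      hTe.comp (h := Fin.cons (fun w : Fin (n + 2) → ℕ => w 0)
        (fun i (w : Fin (n + 2) → ℕ) => w i.succ.succ)) (fun i => by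
          refine Fin.cases ?_ (fun i => ?_) i
          · exact DFun.proj 0
          · exact DFun.proj i.succ.succ)
    have h2 := testBit_def h1 (DFun.proj (n := n + 2) 1)
    refine ((Delta0.and (Delta0.ltFun (DFun.proj 1) hN.weak.weak)
      (Delta0.eqFun h2 (DFun.const 1))).or (Delta0.and (Delta0.eqFun (DFun.proj 0) hN.weak.weak)
        (Delta0.eqFun (DFun.proj 1) hN.weak.weak))).of_iff fun w => ?_
    unfold Eo
    refine or_congr (and_congr Iff.rfl ?_) Iff.rfl
    cases ((T (eo (N fun i => w i.succ.succ) (w 0)) fun i => w i.succ.succ).testBit (w 1)) <;>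
      simp
  have hW : Delta0 (n + 2) (fun w => Walk (Eo (N fun i => w i.succ.succ)
      (fun z => T z fun i => w i.succ.succ)) ((N fun i => w i.succ.succ) + 1) (w 0) (w 1)
      (t fun i => w i.succ.succ)) := by
    refine walk_delta (S := fun w => (N fun i => w i.succ.succ) + 1)
      (B := fun w => 2 * (B fun i => w i.succ.succ)) (i := fun w => w 0) (j := fun w => w 1)
      (t := fun w => t fun i => w i.succ.succ)
      (E := fun a b w => Eo (N fun i => w i.succ.succ) (fun z => T z fun i => w i.succ.succ) a b)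
      (hN.weak.weak.add (DFun.const 1)) ((DFun.const 2).mul hB.weak.weak) (DFun.proj 0)
      (DFun.proj 1) ht.weak.weak (fun w => ?_) ?_
    · have := hNB (fun i => w i.succ.succ)
      show 2 ^ (_ + 1) ≤ 2 * _
      rw [pow_succ]
      omega
    · exact hE.rename (n := n + 2 + 2) (Fin.cons 0 (Fin.cons 1 (fun i => i.succ.succ.succ.succ)))
  have hP : Delta0 (n + 1) (fun w => ∃ i, i < (N fun i => w i.succ) + 1 ∧
      ((i = (N fun i => w i.succ) ∨ (x fun i => w i.succ).testBit i = true) ∧
        Walk (Eo (N fun i => w i.succ) (fun z => T z fun i => w i.succ))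
          ((N fun i => w i.succ) + 1) i (w 0) (t fun i => w i.succ))) := by
    have h1 : Delta0 (n + 2) (fun w => w 0 < (N fun i => w i.succ.succ) + 1) :=
      Delta0.ltFun (DFun.proj 0) (hN.weak.weak.add (DFun.const 1))
    have h2 : Delta0 (n + 2) (fun w => w 0 = (N fun i => w i.succ.succ) ∨
        (x fun i => w i.succ.succ).testBit (w 0) = true) := by
      refine ((Delta0.eqFun (DFun.proj 0) hN.weak.weak).or (Delta0.eqFun
        (testBit_def hx.weak.weak (DFun.proj (n := n + 2) 0)) (DFun.const 1))).of_iff fun w => ?_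
      refine or_congr Iff.rfl ?_
      cases ((x fun i => w i.succ.succ).testBit (w 0)) <;> simp
    refine (Delta0.bexFun (hN.weak.add (DFun.const 1))
      (P := fun i w => i < (N fun i => w i.succ) + 1 ∧
        ((i = (N fun i => w i.succ) ∨ (x fun i => w i.succ).testBit i = true) ∧
        Walk (Eo (N fun i => w i.succ) (fun z => T z fun i => w i.succ))
          ((N fun i => w i.succ) + 1) i (w 0) (t fun i => w i.succ)))
      (h1.and (h2.and hW))).of_iff fun w => ?_
    constructor
    · rintro ⟨i, hi, h3⟩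
      exact ⟨i, hi.le, hi, h3⟩
    · rintro ⟨i, _, hi, h3⟩
      exact ⟨i, hi, h3⟩
  have hfin : DFun n (fun v => code (N v) fun j => decide (∃ i, i < N v + 1 ∧
      ((i = N v ∨ (x v).testBit i = true) ∧
        Walk (Eo (N v) (fun z => T z v)) (N v + 1) i j (t v)))) := by
    refine code_def hN hB hNB ?_
    refine (show (fun w : Fin (n + 1) → ℕ => (decide (∃ i, i < (N fun i => w i.succ) + 1 ∧
      ((i = (N fun i => w i.succ) ∨ (x fun i => w i.succ).testBit i = true) ∧
        Walk (Eo (N fun i => w i.succ) (fun z => T z fun i => w i.succ))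
          ((N fun i => w i.succ) + 1) i (w 0) (t fun i => w i.succ)))).toNat) = _ from ?_) ▸
      (DFun.ite hP (DFun.const 1) (DFun.const 0))
    funext w
    by_cases hw : (∃ i, i < (N fun i => w i.succ) + 1 ∧
      ((i = (N fun i => w i.succ) ∨ (x fun i => w i.succ).testBit i = true) ∧
        Walk (Eo (N fun i => w i.succ) (fun z => T z fun i => w i.succ))
          ((N fun i => w i.succ) + 1) i (w 0) (t fun i => w i.succ)))
    · rw [if_pos hw, decide_eq_true hw]
      rfl
    · rw [if_neg hw, decide_eq_false hw]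
      rfl
  refine (show (fun v => (fun z => T z v)^[t v] (x v)) = _ from ?_) ▸ hfin
  funext v
  obtain ⟨h1, h2⟩ := or_iter_bit (N := N v) (T := fun z => T z v) (fun z hz => hTb v z hz)
    (fun y z hy hz => hop v y z hy hz) (hxb v) (t v)
  refine ext_testBit h1 (code_lt _ _) fun j hj => ?_
  rw [testBit_code hj, Bool.eq_iff_iff, decide_eq_true_iff, h2 j hj]
  constructor
  · rintro ⟨i, hi, h3⟩
    exact ⟨i, by omega, h3⟩
  · rintro ⟨i, hi, h3⟩
    exact ⟨i, by omega, h3⟩

end Pool.Agent.H63PL
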