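import Pool.Agent.H63PL.Def
import Pool.Agent.H69Fu.All

/-!
# Maps which commute with the sum of three words
-/

set_option autoImplicit false

namespace Pool.Agent.H63PL

open Finset Pool.Agent.Grz Pool.Agent.GAvg Pool.Agent.PTr Pool.Agent.LPC Pool.Agent.LinU

theorem dg_xor (x y i : ℕ) : ((dg 2 (x ^^^ y) i : ℕ) : ZMod 2) = (dg 2 x i : ℕ) + (dg 2 y i : ℕ) := by
  rw [dg_testBit, dg_testBit, dg_testBit, Nat.testBit_xor]
  cases x.testBit i <;> cases y.testBit i <;> decide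

theorem xor_aff {N : ℕ} {T : ℕ → ℕ} (hop : ∀ x y z, x < 2 ^ N → y < 2 ^ N → z < 2 ^ N →
    T (x ^^^ y ^^^ z) = T x ^^^ T y ^^^ T z) {n : ℕ} (hn : n ≤ N) :
    ∀ z, z < 2 ^ n → ∀ i : ℕ, ((dg 2 (T z) i : ℕ) : ZMod 2) =
      ∑ j ∈ range n, (((dg 2 (T (2 ^ j)) i : ℕ) : ZMod 2) + (dg 2 (T 0) i : ℕ)) * (dg 2 z j : ℕ) +
        (dg 2 (T 0) i : ℕ) := by
  induction n with
  | zero =>
    intro z hz i
    have hz0 : z = 0 := by
      rw [pow_zero] at hz
      omega
    rw [hz0, range_zero, sum_empty, zero_add]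
  | succ n ih =>
    intro z hz i
    have hle : 2 ^ n < 2 ^ N := Nat.pow_lt_pow_right (by norm_num) hn
    rw [sum_range_succ]
    have h2 : (2 : ZMod 2) = 0 := by decide
    by_cases h : z < 2 ^ n
    · have h0 : dg 2 z n = 0 := by
        unfold dg
        rw [Nat.div_eq_of_lt h]
      rw [ih (by omega) z h i, h0, Nat.cast_zero, mul_zero, add_zero]
    · obtain ⟨z', rfl⟩ : ∃ z', z = 2 ^ n ^^^ z' := ⟨2 ^ n ^^^ z, by
        rw [← Nat.xor_assoc, Nat.xor_self, Nat.zero_xor]⟩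
      have hz' : z' < 2 ^ n := by
        refine Nat.lt_pow_two_of_testBit _ fun j hj => ?_
        rcases Nat.eq_or_lt_of_le hj with rfl | hj'
        · by_contra hc
          rw [Bool.not_eq_false] at hc
          refine h (Nat.lt_pow_two_of_testBit _ fun j hj => ?_)
          rcases Nat.eq_or_lt_of_le hj with rfl | hj'
          · rw [Nat.testBit_xor, Nat.testBit_two_pow_self, hc]
            rfl
          · exact Nat.testBit_lt_two_pow (hz.trans_le (Nat.pow_le_pow_right (by norm_num) hj'))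
        · have h3 : (2 ^ n ^^^ z').testBit j = false :=
            Nat.testBit_lt_two_pow (hz.trans_le (Nat.pow_le_pow_right (by norm_num) hj'))
          rw [Nat.testBit_xor, Nat.testBit_two_pow_of_ne (by omega), Bool.false_xor] at h3
          exact h3
      have e1 : T (2 ^ n ^^^ z') = T (2 ^ n) ^^^ T z' ^^^ T 0 := by
        have := hop (2 ^ n) z' 0 hle (hz'.trans hle) (pow_pos (by norm_num) _)
        rwa [Nat.xor_zero] at this
      have e2 : ∀ j ∈ range n, (((dg 2 (T (2 ^ j)) i : ℕ) : ZMod 2) + (dg 2 (T 0) i : ℕ)) *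
          (dg 2 (2 ^ n ^^^ z') j : ℕ) = (((dg 2 (T (2 ^ j)) i : ℕ) : ZMod 2) +
            (dg 2 (T 0) i : ℕ)) * (dg 2 z' j : ℕ) := by
        intro j hj
        rw [mem_range] at hj
        have : dg 2 (2 ^ n ^^^ z') j = dg 2 z' j := by
          rw [dg_testBit, dg_testBit, Nat.testBit_xor, Nat.testBit_two_pow_of_ne (by omega),
            Bool.false_xor]
        rw [this]
      have e3 : dg 2 (2 ^ n ^^^ z') n = 1 := by
        rw [dg_testBit, Nat.testBit_xor, Nat.testBit_two_pow_self, Nat.testBit_lt_two_pow hz']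
        rfl
      rw [e1, dg_xor, dg_xor, sum_congr rfl e2, e3, ih (by omega) z' hz' i, Nat.cast_one, mul_one]
      ring

section

variable {n : ℕ} {N B x t : (Fin n → ℕ) → ℕ} {T : ℕ → (Fin n → ℕ) → ℕ}

theorem xor_iter' (hN : DFun n N) (hB : DFun n B) (hx : DFun n x) (ht : DFun n t)
    (hT : DFun (n + 1) (fun w => T (w 0) fun i => w i.succ)) (hNB : ∀ v, 2 ^ N v ≤ B v)
    (hTb : ∀ v z, z < 2 ^ N v → T z v < 2 ^ N v)
    (hop : ∀ v x y z, x < 2 ^ N v → y < 2 ^ N v → z < 2 ^ N v →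
      T (x ^^^ y ^^^ z) v = T x v ^^^ T y v ^^^ T z v)
    (hxb : ∀ v, x v < 2 ^ N v) : DFun n (fun v => (fun z => T z v)^[t v] (x v)) := by
  refine H69Fu.full_aff_pos (m := fun _ => 2) (DFun.const 2) hN hB hx ht hT (fun _ => two_pos) hNB
    hTb (fun v => ⟨fun i j => ((dg 2 (T (2 ^ (j : ℕ)) v) i : ℕ) : ZMod 2) + (dg 2 (T 0 v) i : ℕ),
      fun i => ((dg 2 (T 0 v) i : ℕ) : ZMod 2), fun z hz => ?_⟩) hxb
  funext i
  have h1 := xor_aff (T := fun z => T z v) (hop v) le_rfl z hz i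
  rw [← Fin.sum_univ_eq_sum_range (fun j => (((dg 2 (T (2 ^ j) v) i : ℕ) : ZMod 2) +
    (dg 2 (T 0 v) i : ℕ)) * (dg 2 z j : ℕ))] at h1
  exact h1

end

end Pool.Agent.H63PL
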