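import Pool.Agent.H63PL.AndI
import Pool.Agent.H63PL.XorI

/-!
# Rules which commute with an operation
-/

set_option autoImplicit false

namespace Pool.Agent.H63PL

open Finset Pool.Agent.Grz Pool.Agent.GAvg Pool.Agent.PTr Pool.Agent.LPC Pool.Agent.LinU

/-- **The positive part.** -/
theorem iterF_of {k : ℕ} {F : Set (BF k)} (h : Affine F ∨ Disj F ∨ Conj F) : IterF F := by
  intro n N B x t T hN hB hx ht hT hNB hTb hR hxb
  rcases h with h | h | h
  · refine xor_iter' hN hB hx ht hT hNB hTb (fun v a b c ha hb hc => ?_) hxb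
    have hab := Nat.xor_lt_two_pow ha hb
    have habc := Nat.xor_lt_two_pow hab hc
    refine ext_testBit (N := N v) (hTb v _ habc)
      (Nat.xor_lt_two_pow (Nat.xor_lt_two_pow (hTb v _ ha) (hTb v _ hb)) (hTb v _ hc))
      fun i hi => ?_
    rw [Nat.testBit_xor, Nat.testBit_xor]
    rcases hR v i hi with ⟨j, -, hj⟩ | ⟨f, hf, a', -, hj⟩
    · rw [hj _ habc, hj _ ha, hj _ hb, hj _ hc, Nat.testBit_xor, Nat.testBit_xor]
    · rw [hj _ habc, hj _ ha, hj _ hb, hj _ hc, ← h f hf]
      congr 1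
      funext l
      rw [Nat.testBit_xor, Nat.testBit_xor]
  · refine or_iter' hN hB hx ht hT hNB hTb (fun v a b ha hb => ?_) hxb
    have hab := Nat.or_lt_two_pow ha hb
    refine ext_testBit (N := N v) (hTb v _ hab) (Nat.or_lt_two_pow (hTb v _ ha) (hTb v _ hb))
      fun i hi => ?_
    rw [Nat.testBit_or]
    rcases hR v i hi with ⟨j, -, hj⟩ | ⟨f, hf, a', -, hj⟩
    · rw [hj _ hab, hj _ ha, hj _ hb, Nat.testBit_or]
    · rw [hj _ hab, hj _ ha, hj _ hb, ← h f hf]
      congr 1
      funext l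
      rw [Nat.testBit_or]
  · refine and_iter' hN hB hx ht hT hNB hTb (fun v a b ha hb => ?_) hxb
    have hab : a &&& b < 2 ^ N v := lt_of_le_of_lt Nat.and_le_left ha
    refine ext_testBit (N := N v) (hTb v _ hab)
      (lt_of_le_of_lt Nat.and_le_left (hTb v _ ha)) fun i hi => ?_
    rw [Nat.testBit_and]
    rcases hR v i hi with ⟨j, -, hj⟩ | ⟨f, hf, a', -, hj⟩
    · rw [hj _ hab, hj _ ha, hj _ hb, Nat.testBit_and]
    · rw [hj _ hab, hj _ ha, hj _ hb, ← h f hf]
      congr 1
      funext l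
      rw [Nat.testBit_and]

end Pool.Agent.H63PL
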