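import Mathlib

/-!
# Walks of a given length in a finite graph (pure)
-/

set_option autoImplicit false

namespace Pool.Agent.H63PL

/-- there is a walk of length `t` from `i` to `j` in the graph `E` on `[0, n)` -/
def Walk (E : ℕ → ℕ → Prop) (n i j t : ℕ) : Prop :=
  ∃ s : ℕ → ℕ, (∀ l, s l < n) ∧ s 0 = i ∧ s t = j ∧ ∀ l < t, E (s l) (s (l + 1))

theorem walk_trans {E : ℕ → ℕ → Prop} {n i q j a b : ℕ} (h : Walk E n i q a)
    (h' : Walk E n q j b) : Walk E n i j (a + b) := by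
  obtain ⟨s, s1, s2, s3, s4⟩ := h
  obtain ⟨r, r1, r2, r3, r4⟩ := h'
  refine ⟨fun l => if l ≤ a then s l else r (l - a), fun l => ?_, ?_, ?_, fun l hl => ?_⟩
  · show (if l ≤ a then s l else r (l - a)) < n
    split_ifs
    · exact s1 l
    · exact r1 _
  · show (if 0 ≤ a then s 0 else r (0 - a)) = i
    rw [if_pos (Nat.zero_le a), s2]
  · show (if a + b ≤ a then s (a + b) else r (a + b - a)) = j
    split_ifs with h1
    · have h2 : b = 0 := by omega
      subst h2
      rw [Nat.add_zero, s3, ← r2, r3]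
    · rw [Nat.add_sub_cancel_left, r3]
  · show E (if l ≤ a then s l else r (l - a)) (if l + 1 ≤ a then s (l + 1) else r (l + 1 - a))
    rcases lt_trichotomy l a with h1 | h1 | h1
    · rw [if_pos h1.le, if_pos (by omega)]
      exact s4 l h1
    · subst h1
      rw [if_pos le_rfl, if_neg (by omega), s3, ← r2, Nat.add_sub_cancel_left]
      exact r4 0 (by omega)
    · rw [if_neg (by omega), if_neg (by omega)]
      have h2 := r4 (l - a) (by omega)
      rwa [show l - a + 1 = l + 1 - a by omega] at h2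

theorem walk_mul {E : ℕ → ℕ → Prop} {n q b : ℕ} (h : Walk E n q q b) (k : ℕ) :
    Walk E n q q (k * b) := by
  induction k with
  | zero =>
    obtain ⟨s, s1, s2, -, -⟩ := h
    have hq : q < n := by
      rw [← s2]
      exact s1 0
    rw [Nat.zero_mul]
    exact ⟨fun _ => q, fun _ => hq, rfl, rfl, fun l hl => absurd hl (Nat.not_lt_zero l)⟩
  | succ k ih =>
    rw [Nat.succ_mul]
    exact walk_trans ih h

theorem walk_piece {E : ℕ → ℕ → Prop} {n t u v : ℕ} {s : ℕ → ℕ} (h1 : ∀ l, s l < n)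
    (h2 : ∀ l < t, E (s l) (s (l + 1))) (huv : u ≤ v) (hv : v ≤ t) :
    Walk E n (s u) (s v) (v - u) := by
  refine ⟨fun l => s (u + l), fun l => h1 _, rfl, ?_, fun l hl => h2 (u + l) (by omega)⟩
  show s (u + (v - u)) = s v
  rw [Nat.add_sub_cancel' huv]

/-- two positions with the same node -/
theorem exists_pos {n p b : ℕ} {s : ℕ → ℕ} (h1 : ∀ l, s l < n) (hb : 0 < b) (hp : n * b ≤ p) :
    ∃ u v, u < v ∧ v ≤ p ∧ s u = s v ∧ u % b = v % b := by
  have hcard : Fintype.card (Fin n × Fin b) < Fintype.card (Fin (p + 1)) := by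
    rw [Fintype.card_prod, Fintype.card_fin, Fintype.card_fin, Fintype.card_fin]
    omega
  obtain ⟨x, y, hxy, hfe⟩ := Fintype.exists_ne_map_eq_of_card_lt
    (fun l : Fin (p + 1) => ((⟨s l, h1 l⟩, ⟨l % b, Nat.mod_lt _ hb⟩) : Fin n × Fin b)) hcard
  have e1 : s x = s y := congrArg Fin.val (congrArg Prod.fst hfe)
  have e2 : (x : ℕ) % b = (y : ℕ) % b := congrArg Fin.val (congrArg Prod.snd hfe)
  rcases lt_or_gt_of_ne (fun h => hxy (Fin.ext h) : (x : ℕ) ≠ y) with h | h
  · exact ⟨x, y, h, Nat.lt_succ_iff.1 y.2, e1, e2⟩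
  · exact ⟨y, x, h, Nat.lt_succ_iff.1 x.2, e1.symm, e2.symm⟩

theorem walk_reduce {E : ℕ → ℕ → Prop} {n b : ℕ} (hb : 0 < b) {p i q : ℕ}
    (h : Walk E n i q p) : ∃ a, a < n * b ∧ a ≤ p ∧ b ∣ p - a ∧ Walk E n i q a := by
  induction p using Nat.strong_induction_on with
  | _ p ih =>
    by_cases hp : p < n * b
    · exact ⟨p, hp, le_rfl, by simp, h⟩
    · push Not at hp
      obtain ⟨s, s1, s2, s3, s4⟩ := h
      obtain ⟨u, v, huv, hv, he, hm⟩ := exists_pos s1 hb hp
      have hd : b ∣ v - u := (Nat.modEq_iff_dvd' huv.le).1 hm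
      have w1 := walk_piece (u := 0) s1 s4 (Nat.zero_le u) (huv.le.trans hv)
      have w2 := walk_piece s1 s4 hv le_rfl
      rw [s2, Nat.sub_zero] at w1
      rw [← he, s3] at w2
      obtain ⟨a, ha1, ha2, ha3, ha4⟩ := ih (u + (p - v)) (by omega) (walk_trans w1 w2)
      refine ⟨a, ha1, by omega, ?_, ha4⟩
      have e : p - a = (v - u) + (u + (p - v) - a) := by omega
      rw [e]
      exact (Nat.dvd_add_right hd).2 ha3

/-- Long walks go around a short cycle. -/
theorem walk_iff {E : ℕ → ℕ → Prop} {n i j t : ℕ} (ht : n ≤ t) :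
    Walk E n i j t ↔ ∃ q b a₁ a₂, q < n ∧ 1 ≤ b ∧ b ≤ n ∧ a₁ < n ∧ a₂ < n * n ∧ a₁ + a₂ ≤ t ∧
      b ∣ t - (a₁ + a₂) ∧ Walk E n i q a₁ ∧ Walk E n q j a₂ ∧ Walk E n q q b := by
  constructor
  · rintro ⟨s, s1, s2, s3, s4⟩
    obtain ⟨u, v, huv, hv, he, -⟩ := exists_pos (b := 1) (p := n) s1 one_pos (by omega)
    have w1 := walk_piece (u := 0) (v := u) s1 s4 (Nat.zero_le u) (by omega)
    have w2 := walk_piece (u := u) (v := v) s1 s4 huv.le (by omega)
    have w3 := walk_piece (u := v) (v := t) s1 s4 (by omega) le_rfl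
    rw [s2, Nat.sub_zero] at w1
    rw [← he] at w2
    rw [← he, s3] at w3
    have hb : 0 < v - u := by omega
    obtain ⟨a, q1, q2, q3, q4⟩ := walk_reduce hb w3
    have hle : n * (v - u) ≤ n * n := Nat.mul_le_mul_left _ (by omega)
    refine ⟨s u, v - u, u, a, s1 u, hb, by omega, by omega, lt_of_lt_of_le q1 hle,
      by omega, ?_, w1, q4, w2⟩
    have e : t - (u + a) = (v - u) + (t - v - a) := by omega
    rw [e]
    exact (Nat.dvd_add_right (dvd_refl _)).2 q3
  · rintro ⟨q, b, a₁, a₂, -, -, -, -, -, hle, ⟨m, hm⟩, w1, w2, w3⟩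
    have h := walk_trans (walk_trans w1 (walk_mul w3 m)) w2
    have e : a₁ + m * b + a₂ = t := by
      rw [Nat.mul_comm m b]
      omega
    rwa [e] at h

end Pool.Agent.H63PL
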